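import Pool.Agent.Helper84.KR.Lev
import Pool.Agent.Helper7.RD.Kv
import Pool.Agent.Helper69.DGR.Emb

/-! THE VOLUMES OF THE PARTS, all degrees: for a class `C` of labels and a finite family of conditions `A`, the numbers
`volCO C A P` of the parts `P` of one point. -/

set_option autoImplicit false

namespace Pool.Agent.Helper84.KR

open Finset Filter Topology Matrix Pool.Agent.Helper69.RK Pool.Agent.Helper31.EC Pool.Agent.Helper31.EC.Sp
open Pool.Agent.Helper40.EL Pool.Agent.Helper89.LX Pool.Agent.Helper3.LF Pool.Agent.Helper84.MT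
open Pool.Agent.Helper95.LF Pool.Agent.Helper89.RAK Pool.Agent.Helper49.KL
open Pool.Agent.Helper14.MC (adf_sub gx vx vol_eq vx_UB vx_nonneg)
open Pool.Agent.Helper89.RAT (zx zv xz zv_UB xz_bd Jz single_dv)
open Pool.Agent.Helper7.RD (volC volC_eq volC_le_of volC_le_M volC_nonneg volCO volCO_bdd volCO_le volCO_le_M
  volCO_nonneg)

noncomputable section

variable {S : Sp} {m M : ℕ} {κ : Type} {C : LC S} {A : κ → Part S}

/-! ### the degree -/

/-- volumes decrease with the degree -/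
theorem volC_deg {Q : S.VV M} {D D' : ℕ} (h : D ≤ D') : volC C A Q D' ≤ volC C A Q D := by
  obtain ⟨x, hx⟩ := (gaq Q D).exists_optfK C A
  rw [volC_eq hx]
  exact (volC_le_of ⟨Pool.Agent.Helper69.DGR.upx_Adf h hx.1.1, hx.1.2⟩).trans
    (Pool.Agent.Helper69.DGR.vol_upx h hx.1.1)

/-- large degrees -/
theorem volCO_lt {Q : S.VV M} {v : ℝ} (h : volCO C A Q < v) : ∃ D₀ : ℕ, ∀ D, D₀ ≤ D → volC C A Q D < v := by
  obtain ⟨D₀, hD⟩ := exists_lt_of_ciInf_lt h
  exact ⟨D₀, fun D hD' => (volC_deg hD').trans_lt hD⟩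

theorem volCO_ge {Q : S.VV M} {v : ℝ} (D₀ : ℕ) (h : ∀ D, D₀ ≤ D → v ≤ volC C A Q D) : v ≤ volCO C A Q := by
  by_contra hc
  obtain ⟨D₁, h1⟩ := volCO_lt (not_le.mp hc)
  exact absurd (h1 _ (le_max_right D₀ D₁)) (not_lt.mpr (h _ (le_max_left D₀ D₁)))

theorem volCO_tendsto (Q : S.VV M) : Tendsto (fun D => volC C A Q D) atTop (𝓝 (volCO C A Q)) := by
  apply tendsto_atTop_ciInf
  · intro a b hab
    exact volC_deg hab
  · exact volCO_bdd

/-- no coordinates -/
theorem volCO_empty (Q : S.VV 0) : volCO C A Q = 0 :=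
  le_antisymm (by
    have h := volCO_le_M (C := C) (A := A) (Q := Q)
    rwa [Nat.cast_zero] at h) volCO_nonneg

/-! ### parts -/

section part
variable {σ : Fin m → Fin M} {Q : S.VV M} {P : S.VV m}

/-- THE CODIMENSION OF THE HULL OF A PART is at most the codimension of the hull -/
theorem volCO_part (hσ : Function.Injective σ) (hP : ∀ k ω a, P.v k ω a = Q.v k ω (σ a)) :
    (m : ℝ) - volCO C A P ≤ M - volCO C A Q := by
  have h : ∀ D, (m : ℝ) - M + volCO C A Q ≤ volC C A P D := by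
    intro D
    obtain ⟨x, hx⟩ := (gaq Q D).exists_optfK C A
    have h1 := optK_prt hP hx (hσ := hσ)
    have h2 := prt_vol hP hx.1.1 (hσ := hσ)
    have h3 := volCO_le (C := C) (A := A) (Q := Q) D
    rw [volC_eq hx] at h3
    rw [volC_eq h1]
    linarith
  have := volCO_ge 0 fun D _ => h D
  linarith

/-- PERMUTED COORDINATES have the same volume -/
theorem volCO_perm {P P₂ : S.VV m} {π : Fin m → Fin m} (hπ : Function.Injective π)
    (h : ∀ k ω a, P₂.v k ω a = P.v k ω (π a)) : volCO C A P₂ = volCO C A P := by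
  obtain ⟨f, hf⟩ : ∃ f : Fin m ≃ Fin m, ∀ a, f a = π a := ⟨Equiv.ofBijective π (Finite.injective_iff_bijective.mp hπ),
    fun a => rfl⟩
  have h1 := volCO_part (C := C) (A := A) hπ h
  have h2 := volCO_part (C := C) (A := A) (P := P) (Q := P₂) (σ := f.symm) f.symm.injective (fun k ω a => by
    rw [h, ← hf, Equiv.apply_symm_apply])
  linarith

/-- the same coordinates -/
theorem volCO_same {m₂ : ℕ} {σ₂ : Fin m₂ → Fin M} {P₂ : S.VV m₂} (hσ : Function.Injective σ)
    (hσ₂ : Function.Injective σ₂) (hP : ∀ k ω a, P.v k ω a = Q.v k ω (σ a))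
    (hP₂ : ∀ k ω a, P₂.v k ω a = Q.v k ω (σ₂ a)) (hr : ∀ a, ∃ b, σ b = σ₂ a) (hr' : ∀ a, ∃ b, σ₂ b = σ a) :
    volCO C A P₂ = volCO C A P := by
  choose f hf using hr
  choose g hg using hr'
  have hfi : Function.Injective f := fun a b hab => hσ₂ (by rw [← hf, ← hf, hab])
  have hgi : Function.Injective g := fun a b hab => hσ (by rw [← hg, ← hg, hab])
  have hmm : m₂ = m := le_antisymm (by
    have := Fintype.card_le_of_injective f hfi
    rwa [Fintype.card_fin, Fintype.card_fin] at this) (by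
    have := Fintype.card_le_of_injective g hgi
    rwa [Fintype.card_fin, Fintype.card_fin] at this)
  subst hmm
  exact volCO_perm hfi fun k ω a => by rw [hP₂, hP, hf]

end part

/-! ### one more coordinate -/

section one
variable [Finite κ] {σ : Fin (m + 1) → Fin M} {Q : S.VV M} {P : S.VV (m + 1)} {P' : S.VV m} {j : Fin (m + 1)}
  {τ : Fin m → Fin M}

/-- ONE MORE COORDINATE: if its cells of level `c` are a label of the class, the codimension grows by at least `c` -/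
theorem volCO_one (hσ : Function.Injective σ) (hP : ∀ k ω a, P.v k ω a = Q.v k ω (σ a))
    (hP' : ∀ k ω a, P'.v k ω a = Q.v k ω (τ a)) (hτσ : ∀ a, τ a = σ (j.succAbove a)) {z : S.VV 1}
    (hz : ∀ k ω, z.v k ω 0 = Q.v k ω (σ j)) {c : ℝ} (h0 : 0 ≤ c) (h1 : c ≤ 1)
    (hl : (Lab.ofZ fun k => Setoid.ker (z.cellv c k)).DMf A)
    (hC : C.ev (Lab.ofZ fun k => Setoid.ker (z.cellv c k))) :
    volCO C A P ≤ volCO C A P' + (1 - c) := by
  have hτ : Function.Injective τ := fun a b hab => by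
    rw [hτσ, hτσ] at hab
    exact Fin.succAbove_right_injective (hσ hab)
  have h : volCO C A P - (1 - c) ≤ volCO C A P' := by
    apply volCO_ge 1
    intro D hD
    obtain ⟨x, hx⟩ := (gaq Q D).exists_optfK C A
    have g1 := optK_prt hP hx (hσ := hσ)
    have g2 := optK_prt hP' hx (hσ := hτ)
    have g3 := prt_one hP hP' hτσ hx (hσ := hσ) (hτ := hτ)
    have g4 := zx_level hD g1 (i := j) (z := z) (fun k ω => by rw [hz, hP]) h0 h1 hl hC
    have g5 := volCO_le (C := C) (A := A) (Q := P) D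
    rw [volC_eq g1] at g5
    rw [volC_eq g2]
    linarith
  linarith

omit [Finite κ] in
/-- ONE MORE COORDINATE: the codimension does not decrease -/
theorem volCO_one_le (hP : ∀ k ω a, P.v k ω a = Q.v k ω (σ a))
    (hP' : ∀ k ω a, P'.v k ω a = Q.v k ω (τ a)) (hτσ : ∀ a, τ a = σ (j.succAbove a)) :
    volCO C A P ≤ volCO C A P' + 1 := by
  have h : ∀ k ω a, P'.v k ω a = P.v k ω (j.succAbove a) := fun k ω a => by rw [hP', hτσ, hP]
  have h1 := volCO_part (C := C) (A := A) Fin.succAbove_right_injective h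
  push_cast at h1
  linarith

end one

/-! ### supermodularity -/

/-- classes with the same labels have the same volumes -/
theorem volCO_cls [Finite κ] {C C' : LC S} {Q : S.VV M} (h : ∀ l : Lab S, C.ev l ↔ C'.ev l) :
    volCO C A Q = volCO C' A Q :=
  le_antisymm (Pool.Agent.Helper7.RD.volCO_mono (fun i => ⟨i, PLe.refl _⟩) fun l hl => (h l).mpr hl)
    (Pool.Agent.Helper7.RD.volCO_mono (fun i => ⟨i, PLe.refl _⟩) fun l hl => (h l).mp hl)

/-- a function of `R` may be added to `R` -/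
theorem kz_inf {R X : ∀ k, Setoid (S.F k).Ω} (h : ∀ᶠ k in UF, (fc (X k) : FL (S.F k)) ≤ fc (R k)) (l : Lab S) :
    (LC.kz fun k => fc (R k)).ev l ↔ (LC.kz fun k => fc (R k ⊓ X k)).ev l := by
  have e1 : ∀ᶠ k in UF, (fc (R k ⊓ X k) : FL (S.F k)) = fc (R k) := by
    filter_upwards [h] with k hk
    rw [fc_inf]
    exact sup_eq_left.mpr hk
  constructor
  · intro hl
    filter_upwards [hl, e1] with k hk e
    show (l k).leak (fc (R k ⊓ X k)) = 0
    rw [e]
    exact hk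
  · intro hl
    filter_upwards [hl, e1] with k hk e
    show (l k).leak (fc (R k)) = 0
    rw [← e]
    exact hk

section sm
variable [Finite κ] {m' : ℕ} {σ : Fin (m + 1) → Fin M} {Q : S.VV M} {P : S.VV (m + 1)} {P' : S.VV m}
  {j : Fin (m + 1)} {τ : Fin m → Fin M}
  {σ₂ : Fin (m' + 1) → Fin M} {P₂ : S.VV (m' + 1)} {P₂' : S.VV m'} {j₂ : Fin (m' + 1)} {τ₂ : Fin m' → Fin M}

/-- **SUPERMODULARITY, all degrees**: `hst` says that the point in the coordinates `tau` fills its hull over all labels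
of the class -/
theorem volCO_super0 {R : ∀ k, Setoid (S.F k).Ω} (hσ : Function.Injective σ) (hσ₂ : Function.Injective σ₂)
    (hP : ∀ k ω a, P.v k ω a = Q.v k ω (σ a))
    (hP' : ∀ k ω a, P'.v k ω a = Q.v k ω (τ a)) (hτσ : ∀ a, τ a = σ (j.succAbove a))
    (hP₂ : ∀ k ω a, P₂.v k ω a = Q.v k ω (σ₂ a)) (hP₂' : ∀ k ω a, P₂'.v k ω a = Q.v k ω (τ₂ a))
    (hτσ₂ : ∀ a, τ₂ a = σ₂ (j₂.succAbove a)) (hsub : ∀ a, ∃ b, σ₂ b = σ a) (hj : σ₂ j₂ = σ j)
    (hR : ∀ k, R k ≤ Setoid.ker (P.cellv 1 k))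
    (hst : ∀ l : Lab S, l.DMf A → (LC.kz fun k => fc (R k)).ev l →
      volCO (LC.kz fun k => fc (R k)) A P' ≤ H (up1 l (P'.dg 1))) :
    volCO (LC.kz fun k => fc (R k)) A P' - volCO (LC.kz fun k => fc (R k)) A P ≤
      volCO (LC.kz fun k => fc (R k)) A P₂' - volCO (LC.kz fun k => fc (R k)) A P₂ := by
  have hτ : Function.Injective τ := fun a b hab => by
    rw [hτσ, hτσ] at hab
    exact Fin.succAbove_right_injective (hσ hab)
  have hτ₂ : Function.Injective τ₂ := fun a b hab => by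
    rw [hτσ₂, hτσ₂] at hab
    exact Fin.succAbove_right_injective (hσ₂ hab)
  choose ρ hρ using hsub
  have hρj : ρ j = j₂ := hσ₂ (by rw [hρ, hj])
  set Ck : LC S := LC.kz fun k => fc (R k) with hCk
  have key : ∀ D, 1 ≤ D → volCO Ck A P' - volC Ck A P D ≤ volC Ck A P₂' D - volC Ck A P₂ D := by
    intro D hD
    obtain ⟨x, hx⟩ := (gaq Q D).exists_optfK Ck A
    have g1 := optK_prt hP hx (hσ := hσ)
    have g2 := optK_prt hP₂ hx (hσ := hσ₂)
    have g3 := optK_prt hP₂' hx (hσ := hτ₂)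
    have g4 := prt_low hP hP' hτσ hD hR hx (hσ := hσ)
    have g5 := prt_one hP₂ hP₂' hτσ₂ hx (hσ := hσ₂) (hτ := hτ₂)
    have g6 := prt_sub hP hP₂ hρ hx j (hσ := hσ) (hσ₂ := hσ₂)
    have g7 := hst (lb x) (Gau.Adf.dm (gaq Q D) hx.1.1) hx.1.2
    rw [hρj] at g6
    rw [volC_eq g1, volC_eq g2, volC_eq g3]
    linarith
  have t1 : Tendsto (fun D => volCO Ck A P' - volC Ck A P D) atTop (𝓝 (volCO Ck A P' - volCO Ck A P)) :=
    tendsto_const_nhds.sub (volCO_tendsto P)
  have t2 : Tendsto (fun D => volC Ck A P₂' D - volC Ck A P₂ D) atTop (𝓝 (volCO Ck A P₂' - volCO Ck A P₂)) :=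
    (volCO_tendsto P₂').sub (volCO_tendsto P₂)
  exact le_of_tendsto_of_tendsto t1 t2 (eventually_atTop.mpr ⟨1, key⟩)

/-- **SUPERMODULARITY, all degrees**: the point is a function of `R` -/
theorem volCO_super {R : ∀ k, Setoid (S.F k).Ω} (hσ : Function.Injective σ) (hσ₂ : Function.Injective σ₂)
    (hP : ∀ k ω a, P.v k ω a = Q.v k ω (σ a))
    (hP' : ∀ k ω a, P'.v k ω a = Q.v k ω (τ a)) (hτσ : ∀ a, τ a = σ (j.succAbove a))
    (hP₂ : ∀ k ω a, P₂.v k ω a = Q.v k ω (σ₂ a)) (hP₂' : ∀ k ω a, P₂'.v k ω a = Q.v k ω (τ₂ a))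
    (hτσ₂ : ∀ a, τ₂ a = σ₂ (j₂.succAbove a)) (hsub : ∀ a, ∃ b, σ₂ b = σ a) (hj : σ₂ j₂ = σ j)
    (hR : ∀ᶠ k in UF, (fc (Setoid.ker (P.cellv 1 k)) : FL (S.F k)) ≤ fc (R k))
    (hst : ∀ l : Lab S, l.DMf A → (LC.kz fun k => fc (R k)).ev l →
      volCO (LC.kz fun k => fc (R k)) A P' ≤ H (up1 l (P'.dg 1))) :
    volCO (LC.kz fun k => fc (R k)) A P' - volCO (LC.kz fun k => fc (R k)) A P ≤
      volCO (LC.kz fun k => fc (R k)) A P₂' - volCO (LC.kz fun k => fc (R k)) A P₂ := by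
  have hk := kz_inf hR
  have e1 := fun {m : ℕ} (X : S.VV m) => volCO_cls (A := A) (Q := X) hk
  rw [e1, e1, e1, e1]
  exact volCO_super0 hσ hσ₂ hP hP' hτσ hP₂ hP₂' hτσ₂ hsub hj (fun k => inf_le_right) fun l h1 h2 => by
    rw [← e1]
    exact hst l h1 ((hk l).mpr h2)

end sm

end

end Pool.Agent.Helper84.KR
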