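import Pool.Agent.Helper84.KR.Prt

/-! THE VOLUMES OF THE PARTS of one optimal form: the codimension of the hull of a part is at most the codimension of
the hull; adding one coordinate `i` to the coordinates `J` adds at least the exponent of `i` in the part `J + i`, and
exactly this exponent if the point in the coordinates `J` fills its hull; supermodularity. -/

set_option autoImplicit false
set_option linter.unusedSectionVars false

namespace Pool.Agent.Helper84.KR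

open Finset Filter Topology Matrix Pool.Agent.Helper69.RK Pool.Agent.Helper31.EC Pool.Agent.Helper31.EC.Sp
open Pool.Agent.Helper40.EL Pool.Agent.Helper89.LX Pool.Agent.Helper3.LF Pool.Agent.Helper84.MT
open Pool.Agent.Helper95.LF Pool.Agent.Helper89.RAK
open Pool.Agent.Helper14.MC (adf_sub gx vx vol_eq vx_UB vx_nonneg)
open Pool.Agent.Helper89.RAT (zx zv xz zv_UB xz_bd)
open Pool.Agent.Helper41.VC (fj)

noncomputable section

variable {S : Sp} {m M D : ℕ} {κ κ' : Type} {Q : S.VV M}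

section base
variable {σ : Fin m → Fin M} {hσ : Function.Injective σ} {P : S.VV m}

theorem inc_tr_inc {α β : Type} [Fintype α] [DecidableEq α] [Fintype β] [DecidableEq β] {e : α → β}
    (he : Function.Injective e) : (inc e).transpose * inc e = (1 : Matrix α α ℝ) := by
  ext i j
  have h1 : ((inc e).transpose * inc e) i j = (((inc e).transpose * inc e) *ᵥ Pi.single j 1) i := by
    rw [Matrix.mulVec_single_one]
    rfl
  rw [h1, ← Matrix.mulVec_mulVec, inc_tr, inc_comp he]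
  by_cases h : i = j
  · rw [h, Pi.single_eq_same, Matrix.one_apply_eq]
  · rw [Pi.single_eq_of_ne h, Matrix.one_apply_ne h]

/-- the determinant of the part -/
theorem GQ_prm (hσ : Function.Injective σ) {A : Matrix (Mon M D) (Mon M D) ℝ} (hA : PdM A) (r : ℝ) (x : Fin M → ℝ) :
    GQ r (prm σ hσ A) (x ∘ σ) ≤ GQ r A x := by
  have hB := prm_pd hσ hA
  set J := Jq r (prm σ hσ A) (x ∘ σ) with hJ
  have e1 : GQ r (prm σ hσ A) (x ∘ σ) = (1 + inc σ * (J * (inc σ).transpose)).det := by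
    rw [Matrix.det_one_add_mul_comm, Matrix.mul_assoc, inc_tr_inc hσ, Matrix.mul_one]
    rfl
  have e2 : ∀ v : Fin M → ℝ, v ⬝ᵥ ((1 + inc σ * (J * (inc σ).transpose)) *ᵥ v) =
      v ⬝ᵥ v + (v ∘ σ) ⬝ᵥ (J *ᵥ (v ∘ σ)) := by
    intro v
    rw [dv_add, Matrix.one_mulVec]
    have h1 := dv_conj (inc σ).transpose J v
    rw [Matrix.transpose_transpose, inc_tr, Matrix.mul_assoc] at h1
    rw [h1]
  have hs : (1 + inc σ * (J * (inc σ).transpose)).IsSymm := by
    have h1 : J.transpose = J := Jq_symm r hB.1 (x ∘ σ)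
    show (1 + inc σ * (J * (inc σ).transpose)).transpose = _
    rw [Matrix.transpose_add, Matrix.transpose_one, Matrix.transpose_mul, Matrix.transpose_mul,
      Matrix.transpose_transpose, h1, Matrix.mul_assoc]
  rw [e1]
  apply det_mono
  · refine ⟨hs, fun v hv => ?_⟩
    rw [e2]
    have h1 := self_pos hv
    have h2 : 0 ≤ (v ∘ σ) ⬝ᵥ (J *ᵥ (v ∘ σ)) := Jq_nonneg r hB.nonneg _ _
    linarith
  · exact one_Jq_symm r hA.1 x
  · intro v
    rw [e2, dv_add, Matrix.one_mulVec]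
    have h1 := prm_Jq hσ hA r x v
    linarith

variable (hP : ∀ k ω a, P.v k ω a = Q.v k ω (σ a))
include hP

/-- THE CODIMENSION OF THE HULL OF THE PART is at most the codimension of the hull -/
theorem prt_vol {A : κ → Part S} {x : ∀ k, FD (S.F k) (Mon M D)} (hx : (gaq Q D).Adf A x) :
    (m : ℝ) - vol P D (prt σ hσ x) ≤ M - vol Q D x := by
  rw [vol_eq, vol_eq, sub_sub_cancel, sub_sub_cancel]
  apply ul_mono (vx_UB (prt_adf hP hx)) (vx_UB hx)
  filter_upwards [hx 1 one_pos] with k hk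
  have hn := (S.F k).pos
  unfold vx
  refine Finset.sum_le_sum fun ω _ => ?_
  by_cases h0 : (x k).l.T.μ ω = 0
  · show (x k).l.T.μ ω * _ ≤ (x k).l.T.μ ω * _
    rw [h0, zero_mul, zero_mul]
  · refine mul_le_mul_of_nonneg_left ?_ ((x k).l.T.nn ω)
    have c1 := (hk.2.1 ω h0).1
    have hB := prm_pd hσ c1.pdM
    unfold gx
    refine div_le_div_of_nonneg_right (Real.logb_le_logb_of_le (by norm_num) ?_ ?_) (by positivity)
    · exact lt_of_lt_of_le one_pos (one_le_GQ _ hB.1 hB.nonneg _)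
    · have h1 := GQ_prm hσ c1.pdM (S.dl 1 k) (Q.v k ((x k).l.p.π ω))
      rw [← P_comp hP] at h1
      exact h1

/-- the point in the coordinates `σ` is in the hull -/
theorem prt_H {A : κ → Part S} (hD : 1 ≤ D) {x : ∀ k, FD (S.F k) (Mon M D)} (hx : (gaq Q D).Adf A x) :
    H (up1 (lb x) (P.dg 1)) ≤ vol P D (prt σ hσ x) :=
  Pool.Agent.Helper14.MC.cnt_vol P hD _ (prt_adf hP hx (hσ := hσ))

end base

/-! ### adding one coordinate -/

section one
variable {σ : Fin (m + 1) → Fin M} {hσ : Function.Injective σ} {P : S.VV (m + 1)} {P' : S.VV m} {j : Fin (m + 1)}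
  {τ : Fin m → Fin M} {hτ : Function.Injective τ}
  (hP : ∀ k ω a, P.v k ω a = Q.v k ω (σ a)) (hP' : ∀ k ω a, P'.v k ω a = Q.v k ω (τ a))
  (hτσ : ∀ a, τ a = σ (j.succAbove a)) {C : LC S} {A : κ → Part S} {x : ∀ k, FD (S.F k) (Mon M D)}

include hP hP' hτσ in
theorem P_fj (k : ℕ) (ω : (S.F k).Ω) : P'.v k ω = fj j (P.v k ω) := by
  funext a
  rw [hP', hτσ, ← hP]
  rfl

include hP hP' hτσ in
/-- the part `J + i` against the part `J`: the exponent of `i` is at most the difference of the codimensions -/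
theorem prt_one [Finite κ] (hx : (gaq Q D).OptfK C A x) :
    vol P D (prt σ hσ x) ≤ 1 - zx P j (prt σ hσ x) + vol P' D (prt τ hτ x) := by
  have h1 := optK_prt hP hx (hσ := hσ)
  have h2 := optK_prt hP' hx (hσ := hτ)
  have h3 : (gaq P D).AdfK C A (zf1 P j (prt τ hτ x)) :=
    ⟨zf1_adf (P_fj hP hP' hτσ) h2.1.1 (Gau.Adf.dm (gaq P' D) h2.1.1), h2.1.2⟩
  exact vol_prj (P_fj hP hP' hτσ) h1.1.1 h2.1.1 fun e he => Gau.OptfK.dom (gaq P D) h1 h3 e he

variable {R : ∀ k, Setoid (S.F k).Ω}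

include hP hP' hτσ in
/-- the bound from below by the entropy of the point in the coordinates `J` -/
theorem prt_low (hD : 1 ≤ D) (hR : ∀ k, R k ≤ Setoid.ker (P.cellv 1 k))
    (hx : (gaq Q D).OptfK (LC.kz fun k => fc (R k)) A x) :
    H (up1 (lb x) (P'.dg 1)) + 1 ≤ vol P D (prt σ hσ x) + zx P j (prt σ hσ x) := by
  have h1 := optK_prt hP hx (hσ := hσ)
  have h2 : Dmz P j (prt σ hσ x) := (slf_K (gaq P D) h1).dmz h1.1.1 hR j
  exact volz_P0 hD h1.1.1 j h2 P' j.succAbove (fun a => Fin.succAbove_ne j a) fun k ω a => by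
    rw [hP', hτσ, ← hP]

include hP hP' hτσ in
/-- **THE EXPONENT OF ONE COORDINATE** is the difference of the codimensions if the other coordinates fill their hull -/
theorem prt_eta [Finite κ] (hD : 1 ≤ D) (hR : ∀ k, R k ≤ Setoid.ker (P.cellv 1 k))
    (hx : (gaq Q D).OptfK (LC.kz fun k => fc (R k)) A x)
    (hst : vol P' D (prt τ hτ x) ≤ H (up1 (lb x) (P'.dg 1))) :
    zx P j (prt σ hσ x) = 1 - vol P D (prt σ hσ x) + vol P' D (prt τ hτ x) := by
  have h1 := prt_one hP hP' hτσ hx (hσ := hσ) (hτ := hτ)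
  have h2 := prt_low hP hP' hτσ hD hR hx (hσ := hσ)
  linarith

end one

/-! ### supermodularity -/

section sm
variable {m' : ℕ} {σ : Fin (m + 1) → Fin M} {hσ : Function.Injective σ} {P : S.VV (m + 1)} {P' : S.VV m}
  {j : Fin (m + 1)} {τ : Fin m → Fin M} {hτ : Function.Injective τ}
  {σ₂ : Fin (m' + 1) → Fin M} {hσ₂ : Function.Injective σ₂} {P₂ : S.VV (m' + 1)} {P₂' : S.VV m'}
  {j₂ : Fin (m' + 1)} {τ₂ : Fin m' → Fin M} {hτ₂ : Function.Injective τ₂}
  (hP : ∀ k ω a, P.v k ω a = Q.v k ω (σ a)) (hP' : ∀ k ω a, P'.v k ω a = Q.v k ω (τ a))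
  (hτσ : ∀ a, τ a = σ (j.succAbove a))
  (hP₂ : ∀ k ω a, P₂.v k ω a = Q.v k ω (σ₂ a)) (hP₂' : ∀ k ω a, P₂'.v k ω a = Q.v k ω (τ₂ a))
  (hτσ₂ : ∀ a, τ₂ a = σ₂ (j₂.succAbove a))
  {ρ : Fin (m + 1) → Fin (m' + 1)} (hρ : ∀ a, σ₂ (ρ a) = σ a) (hj : ρ j = j₂)
  {C : LC S} {A : κ → Part S} {x : ∀ k, FD (S.F k) (Mon M D)} {R : ∀ k, Setoid (S.F k).Ω}

include hP hP₂ hρ in
theorem prt_sub (hx : (gaq Q D).OptfK C A x) (i : Fin (m + 1)) :
    zx P i (prt σ hσ x) ≤ zx P₂ (ρ i) (prt σ₂ hσ₂ x) := by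
  have hρi : Function.Injective ρ := fun a b h => hσ (by rw [← hρ, ← hρ, h])
  have hPP : ∀ k ω a, P.v k ω a = P₂.v k ω (ρ a) := fun k ω a => by rw [hP, hP₂, hρ]
  have h1 := optK_prt hP hx (hσ := hσ)
  have h2 := optK_prt hP₂ hx (hσ := hσ₂)
  have h3 := optK_prt hPP h2 (hσ := hρi)
  have h4 : zx P i (prt σ hσ x) ≤ zx P i (prt ρ hρi (prt σ₂ hσ₂ x)) :=
    DomJ.zx_le (fun e he => Gau.OptfK.dom (gaq P D) h3 h1.1 e he) h3.1.1 h1.1.1 i
  exact h4.trans (prt_zx hPP h2.1.1 i)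

include hP hP' hτσ hP₂ hP₂' hτσ₂ hρ hj in
/-- **SUPERMODULARITY**: the difference of the codimensions increases with the set of the other coordinates, if the
smaller set of coordinates fills its hull -/
theorem prt_super [Finite κ] (hD : 1 ≤ D) (hR : ∀ k, R k ≤ Setoid.ker (P.cellv 1 k))
    (hx : (gaq Q D).OptfK (LC.kz fun k => fc (R k)) A x)
    (hst : vol P' D (prt τ hτ x) ≤ H (up1 (lb x) (P'.dg 1))) :
    vol P' D (prt τ hτ x) - vol P D (prt σ hσ x) ≤ vol P₂' D (prt τ₂ hτ₂ x) - vol P₂ D (prt σ₂ hσ₂ x) := by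
  have h1 := prt_eta hP hP' hτσ hD hR hx hst (hσ := hσ)
  have h2 := prt_one hP₂ hP₂' hτσ₂ hx (hσ := hσ₂) (hτ := hτ₂)
  have h3 := prt_sub hP hP₂ hρ hx j (hσ := hσ) (hσ₂ := hσ₂)
  rw [hj] at h3
  linarith

end sm

end

end Pool.Agent.Helper84.KR
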