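import Pool.Agent.Helper84.KR.Ajo
import Pool.Agent.Helper29.MX.St

/-! THE EXPONENTS OF THE PREFIXES of a pair `(s, R)`: `An s R j c` is the codimension of the K-hull of the window `c` of
the first `j` coordinates; the hypotheses of the selection (`Helper94/SEL/Asm`) about one pair: monotone in the window,
zero for `j = 0`, below the total, steps at least `c`, zero at the window `0` of a stable pair, exchange of two
neighbouring coordinates. -/

set_option autoImplicit false

namespace Pool.Agent.Helper84.KR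

open Finset Filter Topology Matrix Pool.Agent.Helper69.RK Pool.Agent.Helper31.EC Pool.Agent.Helper31.EC.Sp
open Pool.Agent.Helper40.EL Pool.Agent.Helper89.LX Pool.Agent.Helper3.LF Pool.Agent.Helper84.MT
open Pool.Agent.Helper95.LF Pool.Agent.Helper49.KL
open Pool.Agent.Helper87.NSL (cndR KnS)
open Pool.Agent.Helper29.MX (KAd KOp volK volKO Rsl Pt)
open Pool.Agent.Helper7.RD (volC volC_eq volC_le_of volC_le_M volC_nonneg volCO volCO_bdd volCO_le volCO_le_M
  volCO_nonneg volCO_mono)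

noncomputable section

variable {S : Sp} {M : ℕ} {E : ℕ → ℕ} {ι : Type}

/-! ### the volumes of `Helper29/MX/St` -/

theorem volK_eq_volC [Finite ι] (s : MSys S M E ι) (R : Rsl S) (D : ℕ) (c : ℝ) :
    volK s R D c = volC (LC.kz fun k => fc (R k)) (cndR s R c) s.Q D := by
  obtain ⟨x, hx⟩ := (gaq s.Q D).exists_optfK (LC.kz fun k => fc (R k)) (cndR s R c)
  rw [volC_eq hx]
  unfold volK
  apply le_antisymm
  · refine csInf_le (a := vol s.Q D x) ?_ ?_
    · refine ⟨0, ?_⟩
      rintro v ⟨y, hy, rfl⟩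
      have h1 := volC_le_of hy
      exact le_trans volC_nonneg h1
    · exact ⟨x, hx.1, rfl⟩
  · refine le_csInf ⟨vol s.Q D x, x, hx.1, rfl⟩ ?_
    rintro v ⟨y, hy, rfl⟩
    rw [← volC_eq hx]
    exact volC_le_of hy

theorem volKO_eq_volCO [Finite ι] (s : MSys S M E ι) (R : Rsl S) (c : ℝ) :
    volKO s R c = volCO (LC.kz fun k => fc (R k)) (cndR s R c) s.Q := by
  unfold volKO volCO
  exact iInf_congr fun D => volK_eq_volC s R D c

/-! ### prefixes -/

/-- some of the coordinates -/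
def sub {m : ℕ} (Q : S.VV M) (σ : Fin m → Fin M) : S.VV m where
  v := fun k ω a => Q.v k ω (σ a)
  bd := by
    obtain ⟨K, hK, hb⟩ := Q.bd
    exact ⟨K, hK, by filter_upwards [hb] with k hk ω hω a using hk ω hω (σ a)⟩

/-- the first `j` coordinates -/
def pfx (Q : S.VV M) (j : ℕ) (hj : j ≤ M) : S.VV j := sub Q (Fin.castLE hj)

theorem pfx_v (Q : S.VV M) (j : ℕ) (hj : j ≤ M) (k : ℕ) (ω : (S.F k).Ω) (a : Fin j) :
    (pfx Q j hj).v k ω a = Q.v k ω (Fin.castLE hj a) := rfl

/-- THE EXPONENT of the prefix of length `j` at the window `c` -/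
def An (s : MSys S M E ι) (R : Rsl S) (j : ℕ) (c : ℝ) : ℝ :=
  if h : j ≤ M then (j : ℝ) - volCO (LC.kz fun k => fc (R k)) (cndR s R c) (pfx s.Q j h) else 0

section
variable (s : MSys S M E ι) (R : Rsl S)

theorem An_of {j : ℕ} (h : j ≤ M) (c : ℝ) :
    An s R j c = (j : ℝ) - volCO (LC.kz fun k => fc (R k)) (cndR s R c) (pfx s.Q j h) := dif_pos h

theorem An_zero (c : ℝ) : An s R 0 c = 0 := by
  rw [An_of s R (Nat.zero_le M), volCO_empty, Nat.cast_zero, sub_zero]

theorem An_nonneg (j : ℕ) (c : ℝ) : 0 ≤ An s R j c := by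
  by_cases h : j ≤ M
  · rw [An_of s R h]
    have := volCO_le_M (C := LC.kz fun k => fc (R k)) (A := cndR s R c) (Q := pfx s.Q j h)
    linarith
  · unfold An
    rw [dif_neg h]

theorem castLE_inj {j : ℕ} (h : j ≤ M) : Function.Injective (Fin.castLE h) := Fin.castLE_injective h

/-- prefixes are below longer prefixes -/
theorem An_le {j j' : ℕ} (hjj : j ≤ j') (h : j' ≤ M) (c : ℝ) : An s R j c ≤ An s R j' c := by
  rw [An_of s R (hjj.trans h), An_of s R h]
  exact volCO_part (castLE_inj hjj) (fun k ω a => rfl)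

/-- the total -/
theorem An_top [Finite ι] (c : ℝ) : An s R M c = M - volKO s R c := by
  rw [An_of s R le_rfl, volKO_eq_volCO]
  have h1 : volCO (LC.kz fun k => fc (R k)) (cndR s R c) (pfx s.Q M le_rfl) =
      volCO (LC.kz fun k => fc (R k)) (cndR s R c) s.Q :=
    volCO_perm (π := id) Function.injective_id fun k ω a => rfl
  rw [h1]

variable {s R} in
theorem cndR_le {a b : ℝ} (hab : a ≤ b) (i : Option ι) : PLe (cndR s R a i) (cndR s R b i) := by
  rcases i with _ | i
  · exact PLe.refl _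
  · exact (s.lf i).win_mono hab

/-- monotone in the window -/
theorem An_mono [Finite ι] (j : ℕ) : Monotone (An s R j) := by
  intro a b hab
  by_cases h : j ≤ M
  · rw [An_of s R h, An_of s R h]
    have h1 := volCO_mono (C := LC.kz fun k => fc (R k)) (C' := LC.kz fun k => fc (R k)) (A := cndR s R a)
      (A' := cndR s R b) (Q := pfx s.Q j h) (fun i => ⟨i, cndR_le hab i⟩) (fun l hl => hl)
    linarith
  · unfold An
    rw [dif_neg h, dif_neg h]

/-- stable pairs -/
theorem An_stab [Finite ι] (hs : (M : ℝ) ≤ volKO s R 0) {j : ℕ} (h : j ≤ M) : An s R j 0 = 0 := by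
  apply le_antisymm _ (An_nonneg s R j 0)
  refine (An_le s R h le_rfl 0).trans ?_
  rw [An_top]
  linarith

/-! ### the cells of the window -/

end

variable {s : MSys S M E ι} {R : Rsl S}

/-- one coordinate -/
def crd (Q : S.VV M) (i : Fin M) : S.VV 1 := sub Q fun _ : Fin 1 => i

theorem crd_cell {Q : S.VV M} (i : Fin M) (c : ℝ) (k : ℕ) :
    Setoid.ker (Q.cellv c k) ≤ Setoid.ker ((crd Q i).cellv c k) := by
  intro ω ω' h
  have h1 : Q.cellv c k ω = Q.cellv c k ω' := h
  show (crd Q i).cellv c k ω = (crd Q i).cellv c k ω'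
  funext a
  exact congrFun h1 i

theorem crd_kz (hR : KnS R s.Q.v) (i : Fin M) (c : ℝ) :
    (LC.kz fun k => fc (R k)).ev (Lab.ofZ fun k => Setoid.ker ((crd s.Q i).cellv c k)) := by
  filter_upwards [hR] with k hk
  show ((Lab.ofZ _) k).leak (fc (R k)) = 0
  rw [Lab.ofZ_leak _ (fun k => fc (R k)) k]
  apply h_zero
  refine fc_le fun ω ω' h1 h2 h3 h4 => ?_
  show (crd s.Q i).cellv c k ω = (crd s.Q i).cellv c k ω'
  have h5 : s.Q.v k ω = s.Q.v k ω' := hk ω ω' h1 h2 h3 h4
  funext a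
  show ⌊s.Q.v k ω i / S.dl c k⌋ = ⌊s.Q.v k ω' i / S.dl c k⌋
  rw [h5]

theorem crd_dm (hR : KnS R s.Q.v) (i : Fin M) {c : ℝ} (h0 : 0 ≤ c) (h1 : c ≤ 1) :
    (Lab.ofZ fun k => Setoid.ker ((crd s.Q i).cellv c k)).DMf (cndR s R c) := by
  intro j
  rcases j with _ | j
  · have h2 := crd_kz hR i c
    apply tendsto_const_nhds.congr'
    filter_upwards [h2] with k hk
    have h3 : ((Lab.ofZ fun k => Setoid.ker ((crd s.Q i).cellv c k)) k).leak (fc (R k)) = 0 := hk
    show 0 = ((Lab.ofZ fun k => Setoid.ker ((crd s.Q i).cellv c k)) k).leak (fc (R k)) / (S.F k).n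
    rw [h3, zero_div]
  · have h2 := (s.lf j).dg_win h0 h1
    refine h2.of_le (Eventually.of_forall fun k => FLab.leak_nonneg _ _) (Eventually.of_forall fun k => ?_)
    have h3 := Lab.ofZ_leak (fun k => Setoid.ker ((crd s.Q i).cellv c k)) ((s.lf j).win c) k
    show ((Lab.ofZ fun k => Setoid.ker ((crd s.Q i).cellv c k)) k).leak ((s.lf j).win c k) ≤ _
    rw [h3]
    exact h_mono (fc_mono (crd_cell i c k))

/-- STEPS: every prefix has the exponent `c` more than the previous one -/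
theorem An_step [Finite ι] (hR : KnS R s.Q.v) {j : ℕ} (h : j + 1 ≤ M) {c : ℝ} (h0 : 0 ≤ c) (h1 : c ≤ 1) :
    An s R j c + c ≤ An s R (j + 1) c := by
  rw [An_of s R ((Nat.le_succ j).trans h), An_of s R h]
  have h2 := volCO_one (C := LC.kz fun k => fc (R k)) (A := cndR s R c) (Q := s.Q) (P := pfx s.Q (j + 1) h)
    (P' := pfx s.Q j ((Nat.le_succ j).trans h)) (j := Fin.last j) (τ := Fin.castLE ((Nat.le_succ j).trans h))
    (castLE_inj h) (fun k ω a => rfl) (fun k ω a => rfl) (fun a => by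
      rw [Fin.succAbove_last]
      rfl) (z := crd s.Q (Fin.castLE h (Fin.last j))) (fun k ω => rfl) h0 h1 (crd_dm hR _ h0 h1) (crd_kz hR _ c)
  push_cast
  linarith

/-! ### exchange -/

/-- the point fills its hull in the first `j` coordinates, over all K-labels of the window `c` -/
def Full (s : MSys S M E ι) (R : Rsl S) (j : ℕ) (c : ℝ) : Prop := ∀ (h : j ≤ M) (l : Lab S), l.DMf (cndR s R c) →
  (LC.kz fun k => fc (R k)).ev l → volCO (LC.kz fun k => fc (R k)) (cndR s R c) (pfx s.Q j h) ≤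
    H (up1 l ((pfx s.Q j h).dg 1))

/-- the transposition of the coordinates `n`, `n + 1` -/
def tr2 (M n : ℕ) (h : n + 2 ≤ M) : Equiv.Perm (Fin M) := Equiv.swap ⟨n, by omega⟩ ⟨n + 1, by omega⟩

theorem tr2_val (n : ℕ) (h : n + 2 ≤ M) (a : Fin M) : ((tr2 M n h a : Fin M) : ℕ) =
    if (a : ℕ) = n then n + 1 else if (a : ℕ) = n + 1 then n else a := by
  unfold tr2
  rw [Equiv.swap_apply_def]
  by_cases h1 : (a : ℕ) = n
  · rw [if_pos (Fin.ext h1), if_pos h1]
  · rw [if_neg fun h2 => h1 (congrArg Fin.val h2), if_neg h1]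
    by_cases h3 : (a : ℕ) = n + 1
    · rw [if_pos (Fin.ext h3), if_pos h3]
    · rw [if_neg fun h2 => h3 (congrArg Fin.val h2), if_neg h3]

theorem tr2_lt {n : ℕ} (h : n + 2 ≤ M) {j : ℕ} (hjn : j ≠ n + 1) {a : Fin M} (ha : (a : ℕ) < j) :
    ((tr2 M n h a : Fin M) : ℕ) < j := by
  rw [tr2_val]
  split_ifs <;> omega

section swap
variable {t : MSys S M E ι} {n : ℕ} {h : n + 2 ≤ M} {c : ℝ}

/-- **EXCHANGE, the other prefixes**: `t` is `s` with the coordinates `n`, `n + 1` exchanged -/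
theorem An_swap_eq (hQ : ∀ k ω j, t.Q.v k ω j = s.Q.v k ω (tr2 M n h j)) (hw : cndR t R c = cndR s R c) {j : ℕ}
    (hj : j ≤ M) (hjn : j ≠ n + 1) : An t R j c = An s R j c := by
  rw [An_of t R hj, An_of s R hj, hw]
  have hlt : ∀ a : Fin j, ((tr2 M n h (Fin.castLE hj a) : Fin M) : ℕ) < j := fun a => tr2_lt h hjn a.2
  have h1 : volCO (LC.kz fun k => fc (R k)) (cndR s R c) (pfx t.Q j hj) =
      volCO (LC.kz fun k => fc (R k)) (cndR s R c) (pfx s.Q j hj) := by
    refine volCO_perm (π := fun a => ⟨_, hlt a⟩) (fun a b hab => ?_) (fun k ω a => ?_)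
    · have h2 := congrArg Fin.val hab
      exact castLE_inj hj ((tr2 M n h).injective (Fin.ext h2))
    · exact hQ k ω (Fin.castLE hj a)
  rw [h1]

/-- **EXCHANGE** -/
theorem An_swap [Finite ι] (hR : KnS R s.Q.v) (hQ : ∀ k ω j, t.Q.v k ω j = s.Q.v k ω (tr2 M n h j))
    (hw : cndR t R c = cndR s R c) (hf : Full s R n c) :
    An t R (n + 1) c + An s R (n + 1) c ≤ An s R n c + An s R (n + 2) c := by
  have h1 : n + 1 ≤ M := (Nat.le_succ _).trans h
  have h0 : n ≤ M := (Nat.le_succ _).trans h1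
  rw [An_of t R h1, An_of s R h1, An_of s R h0, An_of s R h, hw]
  have hσ : Function.Injective fun a : Fin (n + 1) => tr2 M n h (Fin.castLE h1 a) := fun a b hab =>
    castLE_inj h1 ((tr2 M n h).injective hab)
  have hcell : ∀ᶠ k in UF, (fc (Setoid.ker ((pfx t.Q (n + 1) h1).cellv 1 k)) : FL (S.F k)) ≤ fc (R k) := by
    filter_upwards [hR] with k hk
    refine fc_le fun ω ω' g1 g2 g3 g4 => ?_
    show (pfx t.Q (n + 1) h1).cellv 1 k ω = (pfx t.Q (n + 1) h1).cellv 1 k ω'
    have g5 : s.Q.v k ω = s.Q.v k ω' := hk ω ω' g1 g2 g3 g4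
    funext a
    show ⌊t.Q.v k ω (Fin.castLE h1 a) / S.dl 1 k⌋ = ⌊t.Q.v k ω' (Fin.castLE h1 a) / S.dl 1 k⌋
    rw [hQ, hQ, g5]
  have h2 := volCO_super (A := cndR s R c) (R := R) (Q := s.Q) (P := pfx t.Q (n + 1) h1) (P' := pfx s.Q n h0)
    (j := Fin.last n) (σ := fun a => tr2 M n h (Fin.castLE h1 a)) (τ := Fin.castLE h0)
    (σ₂ := Fin.castLE h) (P₂ := pfx s.Q (n + 2) h) (P₂' := pfx s.Q (n + 1) h1) (j₂ := Fin.last (n + 1))
    (τ₂ := Fin.castLE h1) hσ (castLE_inj h) (fun k ω a => hQ k ω _) (fun k ω a => rfl) (fun a => by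
      rw [Fin.succAbove_last]
      apply Fin.ext
      rw [tr2_val]
      have ha := a.2
      show (a : ℕ) = if (a : ℕ) = n then n + 1 else if (a : ℕ) = n + 1 then n else (a : ℕ)
      rw [if_neg (by omega), if_neg (by omega)]) (fun k ω a => rfl) (fun k ω a => rfl) (fun a => by
      rw [Fin.succAbove_last]
      rfl) (fun a => by
      have ha := a.2
      have g1 : ((tr2 M n h (Fin.castLE h1 a) : Fin M) : ℕ) < n + 2 := by
        rw [tr2_val]
        show (if (a : ℕ) = n then n + 1 else if (a : ℕ) = n + 1 then n else (a : ℕ)) < n + 2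
        split_ifs <;> omega
      exact ⟨⟨_, g1⟩, rfl⟩) (by
      apply Fin.ext
      rw [tr2_val]
      show n + 1 = if n = n then n + 1 else if n = n + 1 then n else n
      rw [if_pos rfl]) hcell (hf h0)
  push_cast
  linarith

end swap

end

end Pool.Agent.Helper84.KR
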