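import Pool.Agent.Helper84.KR.Rate
import Pool.Agent.Helper26.MT.Ze

/-! THE RATE, part 2: one base for countably many labels, the deficit, change of the base, the diagonal. -/

set_option autoImplicit false

namespace Pool.Agent.Helper84.KR

open Finset Filter Topology Matrix Pool.Agent.Helper69.RK Pool.Agent.Helper31.EC Pool.Agent.Helper31.EC.Sp
open Pool.Agent.Helper40.EL Pool.Agent.Helper89.LX Pool.Agent.Helper84.MT Pool.Agent.Helper49.KL Pool.Agent.Helper49.MD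

noncomputable section

variable {S : Sp} {κ κ' : Type}

/-- entropies of a join of partitions -/
theorem h_inf_le {F : FSp} (A B : Setoid F.Ω) (x : FL F) : h (fc (A ⊓ B)) x ≤ h (fc A) x + h (fc B) x := by
  rw [fc_inf]
  have h1 := h_chain (fc A) (fc B) x
  have h2 : h (fc B) (fc A ⊔ x) ≤ h (fc B) x := h_anti le_sup_right
  linarith

/-- joins of literal K-labels -/
theorem dmf_inf {A : κ → Part S} {Z Z' : ∀ k, Setoid (S.F k).Ω} (h : (Lab.ofZ Z).DMf A) (h' : (Lab.ofZ Z').DMf A) :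
    (Lab.ofZ fun k => Z k ⊓ Z' k).DMf A := by
  rw [Lab.ofZ_DMf] at h h' ⊢
  intro i
  exact Nul.of_le (Nul.add (h i) (h' i)) (Eventually.of_forall fun k => h_nonneg _ _)
    (Eventually.of_forall fun k => h_inf_le (Z k) (Z' k) (A i k))

/-- finite joins -/
def wz (Z : ℕ → ∀ k, Setoid (S.F k).Ω) : ℕ → ∀ k, Setoid (S.F k).Ω
  | 0 => Z 0
  | j + 1 => fun k => wz Z j k ⊓ Z (j + 1) k

theorem wz_le (Z : ℕ → ∀ k, Setoid (S.F k).Ω) (k : ℕ) : ∀ j i : ℕ, i ≤ j → wz Z j k ≤ Z i k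
  | 0, i, h => by
    obtain rfl : i = 0 := by omega
    exact le_rfl
  | j + 1, i, h => by
    rcases Nat.lt_or_ge j i with h1 | h1
    · obtain rfl : i = j + 1 := by omega
      exact inf_le_right
    · exact inf_le_left.trans (wz_le Z k j i h1)

theorem wz_lit {R : ∀ k, Setoid (S.F k).Ω} {Z : ℕ → ∀ k, Setoid (S.F k).Ω} (h : ∀ j, Litv R (Z j)) :
    ∀ j, Litv R (wz Z j)
  | 0 => h 0
  | j + 1 => (wz_lit h j).inf (h (j + 1))

theorem wz_dmf {A : κ → Part S} {Z : ℕ → ∀ k, Setoid (S.F k).Ω} (h : ∀ j, (Lab.ofZ (Z j)).DMf A) :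
    ∀ j, (Lab.ofZ (wz Z j)).DMf A
  | 0 => h 0
  | j + 1 => dmf_inf (wz_dmf h j) (h (j + 1))

/-- **ONE BASE FOR COUNTABLY MANY LITERAL K-LABELS** -/
theorem common_base [Finite κ] {A : κ → Part S} {R : ∀ k, Setoid (S.F k).Ω} {Z : ℕ → ∀ k, Setoid (S.F k).Ω}
    (hl : ∀ j, Litv R (Z j)) (hd : ∀ j, (Lab.ofZ (Z j)).DMf A) :
    ∃ Z' : ∀ k, Setoid (S.F k).Ω, Litv R Z' ∧ (Lab.ofZ Z').DMf A ∧ ∀ j, ∀ᶠ k in UF, Z' k ≤ Z j k := by
  have h1 : ∀ j : ℕ, ∀ᶠ k in UF, R k ⊓ (S.F k).Z ≤ wz Z j k ∧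
      ∀ i, h (fc (wz Z j k)) (A i k) ≤ 1 / ((j : ℝ) + 1) * (S.F k).n := by
    intro j
    have h2 : (0 : ℝ) < 1 / ((j : ℝ) + 1) := by positivity
    filter_upwards [wz_lit hl j, leak_evf (wz_dmf hd j) h2] with k a b
    refine ⟨a, fun i => ?_⟩
    have h3 := b i
    rw [Lab.ofZ_leak] at h3
    exact h3
  obtain ⟨J, hJ, hG⟩ := dia _ h1
  have hG' := hG.mono fun k hk => hk (J k) le_rfl
  refine ⟨fun k => wz Z (J k) k, hG'.mono fun k hk => hk.1, ?_, fun j => ?_⟩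
  · rw [Lab.ofZ_DMf]
    intro i
    refine tendsto_of_tendsto_of_tendsto_of_le_of_le' tendsto_const_nhds (inv_tendsto hJ) ?_ ?_
    · exact Eventually.of_forall fun k => div_nonneg (h_nonneg _ _) (S.F k).pos.le
    · filter_upwards [hG'] with k hk
      rw [div_le_iff₀ (S.F k).pos]
      exact hk.2 i
  · filter_upwards [hJ.eventually (eventually_ge_atTop j)] with k hk
    exact wz_le Z k (J k) j hk

/-- **ONE BASE FOR COUNTABLY MANY RATES**, finer than a given literal K-label -/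
theorem rt_common {ι : Type} [Fintype ι] [DecidableEq ι] {Φ : Gau S ι} [Finite κ] {A : κ → Part S}
    {B : ℕ → κ' → Part S} {R : ∀ k, Setoid (S.F k).Ω} {r : ℕ → ℝ} (h : ∀ j, Rt Φ R A (B j) (r j))
    {Z₀ : ∀ k, Setoid (S.F k).Ω} (h0 : Litv R Z₀) (h0' : (Lab.ofZ Z₀).DMf A) :
    ∃ Z : ∀ k, Setoid (S.F k).Ω, Litv R Z ∧ (Lab.ofZ Z).DMf A ∧ (∀ᶠ k in UF, Z k ≤ Z₀ k) ∧
      ∀ j, ∃ L : LF S ι, Litv R L.Z ∧ Φ.OptfK (LC.kz fun k => fc (R k)) (B j) L.fd ∧ Cd L.Z Z (r j) := by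
  choose Z L a1 a2 a3 a4 a5 using h
  obtain ⟨Z', b1, b2, b3⟩ := common_base (A := A) (R := R) (Z := fun j => match j with
    | 0 => Z₀
    | j + 1 => Z j) (by
      intro j
      cases j with
      | zero => exact h0
      | succ j => exact a1 j) (by
      intro j
      cases j with
      | zero => exact h0'
      | succ j => exact a2 j)
  exact ⟨Z', b1, b2, b3 0, fun j => ⟨L j, a3 j, a4 j, (a5 j).base (b3 (j + 1))⟩⟩

/-! ### the deficit -/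

theorem H_up1_ofZ (Z : ∀ k, Setoid (S.F k).Ω) (X : S.L) :
    H (up1 (Lab.ofZ Z) X) = ul (fun k => h (rp X k) (fc (Z k)) / (S.F k).n) := by
  rw [(Lab.ofZ Z).H_upL, div_one]
  refine ul_congr (Eventually.of_forall fun k => ?_)
  refine congrArg (fun t => t / (S.F k).n) ?_
  have h1 : ((Lab.ofZ Z) k).v = (FLab.triv (S.F k)).p.map (fc (Z k)) := rfl
  have h2 : ((Lab.ofZ Z) k).p.map (rp X k) = (FLab.triv (S.F k)).p.map (rp X k) := rfl
  rw [h1, h2]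
  exact (FLab.triv (S.F k)).p.h_map _ _

theorem ub_h_rp (X : S.L) (Y : ∀ k, FL (S.F k)) : UB (fun k => h (rp X k) (Y k) / (S.F k).n) := by
  exact (rp_Bd X).ub Y

/-- **THE DEFICIT**: `H (X | Z) ≤ r + H (X | P)` if `P` costs at most the rate `r` over `Z` -/
theorem Cd.H_le {P Z : ∀ k, Setoid (S.F k).Ω} {r : ℝ} (hc : Cd P Z r) (X : S.L) :
    H (up1 (Lab.ofZ Z) X) ≤ r + H (up1 (Lab.ofZ P) X) := by
  rw [H_up1_ofZ, H_up1_ofZ]
  apply le_of_forall_pos_le_add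
  intro ε hε
  have h1 : ul (fun k => h (rp X k) (fc (P k)) / (S.F k).n + (r + ε)) =
      ul (fun k => h (rp X k) (fc (P k)) / (S.F k).n) + (r + ε) := by
    rw [ul_add (ub_h_rp X _) (UB_const _), ul_const]
  have h2 : ul (fun k => h (rp X k) (fc (Z k)) / (S.F k).n) ≤
      ul (fun k => h (rp X k) (fc (P k)) / (S.F k).n + (r + ε)) := by
    apply ul_mono (ub_h_rp X _) ((ub_h_rp X _).add (UB_const _))
    filter_upwards [hc ε hε] with k hk
    have hn := (S.F k).pos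
    rw [div_le_iff₀ hn, add_mul, div_mul_cancel₀ _ hn.ne']
    have h3 : h (rp X k) (fc (Z k)) ≤ h (rp X k ⊔ fc (P k)) (fc (Z k)) := h_mono le_sup_left
    have h4 := h_chain (fc (P k)) (rp X k) (fc (Z k))
    rw [sup_comm] at h4
    have h5 : h (rp X k) (fc (P k) ⊔ fc (Z k)) ≤ h (rp X k) (fc (P k)) := h_anti le_sup_left
    linarith
  linarith

/-- the other direction: entropies over a finer base -/
theorem H_ofZ_anti {Z Z' : ∀ k, Setoid (S.F k).Ω} (hZ : ∀ᶠ k in UF, Z' k ≤ Z k) (X : S.L) :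
    H (up1 (Lab.ofZ Z') X) ≤ H (up1 (Lab.ofZ Z) X) := by
  rw [H_up1_ofZ, H_up1_ofZ]
  apply ul_mono (ub_h_rp X _) (ub_h_rp X _)
  filter_upwards [hZ] with k hk
  exact div_le_div_of_nonneg_right (h_anti (fc_mono hk)) (S.F k).pos.le

/-! ### change of the base -/

/-- conditional entropies with a finer base -/
theorem h_chg_le {F : FSp} (Z₀ : Setoid F.Ω) (c : ℝ) (hc : 0 < c) (P Z : Setoid F.Ω) :
    h (fc (F := F.chg Z₀ c hc) P) (fc (F := F.chg Z₀ c hc) Z) ≤ h (fc P : FL F) (fc Z) := by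
  have h1 : h (fc (F := F.chg Z₀ c hc) P) (fc (F := F.chg Z₀ c hc) Z) = F.e P (Z ⊓ (Z₀ ⊓ F.Z)) :=
    h_fc (F := F.chg Z₀ c hc) P Z
  rw [h1, h_fc]
  exact F.e_anti fun _ _ _ _ h => ⟨h.1, h.2.2⟩

theorem Cd.chg {P Z : ∀ k, Setoid (S.F k).Ω} {r : ℝ} (h : Cd P Z r) (Z₀ : ∀ k, Setoid (S.F k).Ω) (c : ℝ)
    (hc : 0 < c) : Cd (S := S.chg Z₀ c hc) P Z (r / c) := by
  intro ε hε
  filter_upwards [h (ε * c) (by positivity)] with k hk
  refine (h_chg_le (Z₀ k) c hc (P k) (Z k)).trans (hk.trans (le_of_eq ?_))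
  show (r + ε * c) * (S.F k).n = (r / c + ε) * (c * (S.F k).n)
  field_simp

theorem Litv.chg {R Z : ∀ k, Setoid (S.F k).Ω} (h : Litv R Z) (Z₀ : ∀ k, Setoid (S.F k).Ω) (c : ℝ)
    (hc : 0 < c) : Litv (S := S.chg Z₀ c hc) R Z := by
  filter_upwards [h] with k hk
  exact (le_inf inf_le_left (inf_le_right.trans inf_le_right) : R k ⊓ (Z₀ k ⊓ (S.F k).Z) ≤ R k ⊓ (S.F k).Z).trans hk

/-- the rate in a space with a finer base, given the transfer of labels and forms -/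
theorem Rt.chg {ι ι' : Type} [Fintype ι] [DecidableEq ι] [Fintype ι'] [DecidableEq ι'] {κ₁ κ₁' : Type} {Φ : Gau S ι}
    {R : ∀ k, Setoid (S.F k).Ω} {A : κ → Part S} {B : κ' → Part S} {r : ℝ} (h : Rt Φ R A B r)
    (Z₀ : ∀ k, Setoid (S.F k).Ω) (c : ℝ) (hc : 0 < c) {Φ' : Gau (S.chg Z₀ c hc) ι'}
    {A' : κ₁ → Part (S.chg Z₀ c hc)} {B' : κ₁' → Part (S.chg Z₀ c hc)}
    (hA : ∀ Z : ∀ k, Setoid (S.F k).Ω, Litv R Z → (Lab.ofZ Z).DMf A → (Lab.ofZ (S := S.chg Z₀ c hc) Z).DMf A')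
    (hB : ∀ L : LF S ι, Litv R L.Z → Φ.OptfK (LC.kz fun k => fc (R k)) B L.fd → ∃ L' : LF (S.chg Z₀ c hc) ι',
      (∀ᶠ k in UF, L.Z k ≤ L'.Z k) ∧ Φ'.OptfK (LC.kz (S := S.chg Z₀ c hc) fun k => fc (R k)) B' L'.fd) :
    Rt (S := S.chg Z₀ c hc) Φ' R A' B' (r / c) := by
  obtain ⟨Z, L, a1, a2, a3, a4, a5⟩ := h
  obtain ⟨L', b1, b2⟩ := hB L a3 a4
  refine ⟨Z, L', a1.chg Z₀ c hc, hA Z a1 a2, ?_, b2, (a5.chg Z₀ c hc).coarse b1⟩
  filter_upwards [a3.chg Z₀ c hc, b1] with k u v using u.trans v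

/-! ### the diagonal -/

/-- **THE RATE OF A DIAGONAL**: if the scores of the optimal K-forms converge to the score of the diagonal, the rate of the
diagonal is at most the limit of the rates -/
theorem rt_dg {S : ℕ → Sp} {ι : Type} [Fintype ι] [DecidableEq ι] [Finite κ] [Finite κ'] (Φ : ∀ j, Gau (S j) ι)
    (R : ∀ j k, Setoid ((S j).F k).Ω) (A : ∀ j, κ → Part (S j)) (B : ∀ j, κ' → Part (S j)) (v r : ℕ → ℝ)
    (hv : ∀ j, ∃ x, (Φ j).OptfK (LC.kz fun k => fc (R j k)) (B j) x ∧ ul (fun k => (x k).sc / ((S j).F k).n) = v j)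
    (hr : ∀ j, Rt (Φ j) (R j) (A j) (B j) (r j)) :
    ∃ E : ℕ → ℕ → ℕ → Prop, (∀ i j, ∀ᶠ k in UF, E i j k) ∧ ∀ (J : ℕ → ℕ) (h : Slo S E J)
      (ΦT : Gau (dsp S J h.lim) ι) (RT : ∀ k, Setoid ((dsp S J h.lim).F k).Ω) (AT : κ → Part (dsp S J h.lim))
      (BT : κ' → Part (dsp S J h.lim)), (∀ᶠ k in UF, ΦT.φ k = (Φ (J k)).φ k) → (∀ᶠ k in UF, ΦT.cp k = (Φ (J k)).cp k) →
      (∀ᶠ k in UF, RT k = R (J k) k) → (∀ i, ∀ᶠ k in UF, AT i k = A (J k) i k) →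
      (∀ i, ∀ᶠ k in UF, BT i k = B (J k) i k) → ∀ x₀, ΦT.OptfK (LC.kz fun k => fc (RT k)) BT x₀ →
      Tendsto (fun k => v (J k)) UF (𝓝 (ul (fun k => (x₀ k).sc / ((dsp S J h.lim).F k).n))) → ∀ rT : ℝ,
      Tendsto (fun k => r (J k)) UF (𝓝 rT) → Rt ΦT RT AT BT rT := by
  refine ⟨fun i j k => RtF ((S j).F k) ((Φ j).φ k) ((Φ j).cp k) (R j k) (fun a => A j a k) (fun b => B j b k) (v j) (r j)
    (1 / ((i : ℝ) + 1)), fun i j => ?_, ?_⟩
  · obtain ⟨x, hx, e⟩ := hv j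
    have h1 := (rt_iff hx).mp (hr j) (1 / ((i : ℝ) + 1)) (by positivity)
    rw [e] at h1
    exact h1
  · intro J h ΦT RT AT BT h1 h2 h3 h4 h5 x₀ hx₀ hv' rT hr'
    rw [rt_iff hx₀]
    intro δ hδ
    obtain ⟨i, hi⟩ := exists_nat_ge (2 / δ)
    have hi' : 1 / ((i : ℝ) + 1) ≤ δ / 2 := by
      rw [div_le_iff₀ (by positivity)]
      rw [div_le_iff₀ hδ] at hi
      nlinarith
    have t1 := hv'.eventually (Metric.ball_mem_nhds _ (show (0 : ℝ) < δ / 2 by linarith))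
    have t2 := hr'.eventually (Metric.ball_mem_nhds _ (show (0 : ℝ) < δ / 2 by linarith))
    filter_upwards [h.slow i, h1, h2, h3, eventually_all.mpr h4, eventually_all.mpr h5, t1, t2]
      with k a b1 b2 b3 b4 b5 b6 b7
    have c6 := abs_lt.mp b6
    have c7 := abs_lt.mp b7
    have e4 : (fun i => AT i k) = fun i => A (J k) i k := funext b4
    have e5 : (fun i => BT i k) = fun i => B (J k) i k := funext b5
    rw [b1, b2, b3, e4, e5]
    exact a.mono (by linarith) (by linarith [c6.1, c6.2]) (by linarith [c7.1, c7.2])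

end

end Pool.Agent.Helper84.KR
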