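import Pool.Agent.Helper84.KR.Emb
import Pool.Agent.Helper89.RAK.Volz
import Pool.Agent.Helper89.RAK.Prj
import Pool.Agent.Helper89.RAK.Zom

/-! THE PART OF A LABEL WITH FORMS in the coordinates `σ` of the point: it is admissible, it dominates every form in these
coordinates which `x` dominates, it is optimal if `x` is optimal (in every class of labels), its exponents are below
those of `x`. -/

set_option autoImplicit false

namespace Pool.Agent.Helper84.KR

open Finset Filter Topology Matrix Pool.Agent.Helper69.RK Pool.Agent.Helper31.EC Pool.Agent.Helper31.EC.Sp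
open Pool.Agent.Helper40.EL Pool.Agent.Helper89.LX Pool.Agent.Helper3.LF Pool.Agent.Helper84.MT
open Pool.Agent.Helper95.LF Pool.Agent.Helper89.RAK
open Pool.Agent.Helper14.MC (adf_sub gx vx vol_eq vx_UB vx_nonneg)
open Pool.Agent.Helper89.RAT (zx zv xz zv_UB xz_bd)

noncomputable section

variable {S : Sp} {m M D : ℕ} {κ κ' : Type}

/-- DOMINANCE AND SCORES: the dominated form has the smaller score -/
theorem sc_dom {ι : Type} [Fintype ι] [DecidableEq ι] {Φ Ψ : Gau S ι} {A : κ → Part S} {B : κ' → Part S}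
    {x y : ∀ k, FD (S.F k) ι} (hd : DomJ x y) (hx : Φ.Adf A x) (hy : Ψ.Adf B y) :
    ul (fun k => (y k).sc / (S.F k).n) ≤ ul (fun k => (x k).sc / (S.F k).n) := by
  classical
  have hUx := Φ.sc_UBf hx
  have hUy := Ψ.sc_UBf hy
  set m : ℝ := (Fintype.card ι : ℝ) with hm
  have hm0 : 0 ≤ m := Nat.cast_nonneg _
  suffices h : ∀ e : ℝ, 0 < e → ul (fun k => (y k).sc / (S.F k).n) ≤ ul (fun k => (x k).sc / (S.F k).n) + m * e by
    apply le_of_forall_pos_le_add
    intro ε hε
    have h3 := h (ε / (m + 1)) (by positivity)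
    have h4 : m * (ε / (m + 1)) ≤ ε := by
      rw [mul_div_assoc', div_le_iff₀ (by positivity)]
      nlinarith
    linarith
  intro e he
  have e1 : (fun k => ∑ w, ((x k).jj (y k)).l.T.μ w *
      (Real.logb 2 ((y k).g (((x k).l.am (y k).l).p2.π w)).det / (S.F k).n)) = fun k => (y k).sc / (S.F k).n := by
    funext k
    have h1 := sum_push ((x k).l.am (y k).l).p2 (fun ω => Real.logb 2 ((y k).g ω).det / (S.F k).n)
    refine Eq.trans h1 ?_
    unfold FD.sc
    rw [Finset.sum_div]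
    exact Finset.sum_congr rfl fun w _ => by rw [mul_div_assoc]
  have e2 : (fun k => ∑ w, ((x k).jj (y k)).l.T.μ w *
      (Real.logb 2 ((x k).g (((x k).l.am (y k).l).p1.π w)).det / (S.F k).n + m * e)) =
      fun k => (x k).sc / (S.F k).n + m * e := by
    funext k
    have h1 := sum_push ((x k).l.am (y k).l).p1 (fun ω => Real.logb 2 ((x k).g ω).det / (S.F k).n + m * e)
    refine Eq.trans h1 ?_
    unfold FD.sc
    rw [Finset.sum_congr rfl fun w _ => mul_add _ _ _, Finset.sum_add_distrib, ← Finset.sum_mul,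
      Pool.Agent.Helper3.PR.sum_mu, one_mul, Finset.sum_div]
    congr 1
    exact Finset.sum_congr rfl fun w _ => by rw [mul_div_assoc]
  have hUx2 : UB (fun k => (x k).sc / (S.F k).n + m * e) := hUx.add (UB_const _)
  have key := ul_avg_le (fun k => ((x k).jj (y k)).l.T)
    (fun k w => Real.logb 2 ((x k).g (((x k).l.am (y k).l).p1.π w)).det / (S.F k).n + m * e)
    (fun k w => Real.logb 2 ((y k).g (((x k).l.am (y k).l).p2.π w)).det / (S.F k).n)
    (fun k w => ∀ v, qf (((x k).jj (y k)).g' w) v ≤ 2 ^ (e * (S.F k).n) * qf (((x k).jj (y k)).g w) v)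
    (fun _ => 0) tendsto_const_nhds (m * (Ψ.C + 1)) (hd e he) (by
      filter_upwards [hx 1 one_pos, hy 1 one_pos] with k b3 b4 w hw hE
      have hn := (S.F k).pos
      have s1 := ((x k).l.am (y k).l).p1.supp w hw
      have s2 := ((x k).l.am (y k).l).p2.supp w hw
      have c1 := (b3.2.1 _ s1).1
      have c2 := (b4.2.1 _ s2).1
      set g1 := (x k).g (((x k).l.am (y k).l).p1.π w) with hg1
      set g2 := (y k).g (((x k).l.am (y k).l).p2.π w) with hg2
      have h1 : g2.det ≤ (2 ^ (e * (S.F k).n)) ^ Fintype.card ι * g1.det :=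
        det_le_pow c1.pdM c2.pdM (by positivity) hE
      have h2 : 0 < g1.det := c1.pdM.det_pos
      have h3 : 0 < g2.det := c2.pdM.det_pos
      have h4 := Real.logb_le_logb_of_le (b := 2) (by norm_num) h3 h1
      rw [Real.logb_mul (by positivity) h2.ne', Real.logb_pow, Real.logb_rpow (by norm_num) (by norm_num)] at h4
      show Real.logb 2 g2.det / (S.F k).n ≤ Real.logb 2 g1.det / (S.F k).n + m * e + 0
      rw [add_zero, ← sub_le_iff_le_add', ← sub_div, div_le_iff₀ hn]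
      linarith) (by
      filter_upwards [hy 1 one_pos] with k b4 w hw
      have hn := (S.F k).pos
      have s2 := ((x k).l.am (y k).l).p2.supp w hw
      have h1 := logdet_le (Ψ.one_le_cp k) (b4.2.1 _ s2).1
      rw [Ψ.logb_cp] at h1
      show Real.logb 2 ((y k).g (((x k).l.am (y k).l).p2.π w)).det / (S.F k).n ≤ _
      rw [div_le_iff₀ hn]
      linarith) (by
      filter_upwards [hx 1 one_pos] with k b3 w hw
      have hn := (S.F k).pos
      have s1 := ((x k).l.am (y k).l).p1.supp w hw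
      have h1 := logdet_nonneg (b3.2.1 _ s1).1
      show 0 ≤ Real.logb 2 ((x k).g (((x k).l.am (y k).l).p1.π w)).det / (S.F k).n + m * e
      have h2 := div_nonneg h1 hn.le
      positivity) (by rw [e1]; exact hUy) (by rw [e2]; exact hUx2)
  rw [e1, e2] at key
  have h5 : ul (fun k => (x k).sc / (S.F k).n + m * e) = ul (fun k => (x k).sc / (S.F k).n) + m * e := by
    rw [ul_add hUx (UB_const _), ul_const]
  rw [h5] at key
  exact key

section
variable (σ : Fin m → Fin M) (hσ : Function.Injective σ)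

/-- the part of a label with forms -/
def prt (x : ∀ k, FD (S.F k) (Mon M D)) : ∀ k, FD (S.F k) (Mon m D) := fun k =>
  mkFD (x k).l (fun ω => prm σ hσ ((x k).g ω)) (by
    intro ω ω' a a' b c
    rw [((x k).meas ω ω' a a' b c).1])

/-- forms in the coordinates `σ` as forms in all coordinates -/
def exd (y : ∀ k, FD (S.F k) (Mon m D)) : ∀ k, FD (S.F k) (Mon M D) := fun k =>
  mkFD (y k).l (fun ω => exm σ hσ ((y k).g ω)) (by
    intro ω ω' a a' b c
    rw [((y k).meas ω ω' a a' b c).1])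

theorem prt_lb (x : ∀ k, FD (S.F k) (Mon M D)) : lb (prt σ hσ x) = lb x := rfl

theorem exd_lb (y : ∀ k, FD (S.F k) (Mon m D)) : lb (exd σ hσ y) = lb y := rfl

end

variable {σ : Fin m → Fin M} {hσ : Function.Injective σ} {Q : S.VV M} {P : S.VV m}
  (hP : ∀ k ω a, P.v k ω a = Q.v k ω (σ a))

include hP

theorem P_comp (k : ℕ) (ω : (S.F k).Ω) : P.v k ω = Q.v k ω ∘ σ := funext fun a => hP k ω a

/-- THE PART IS ADMISSIBLE -/
theorem prt_adf {A : κ → Part S} {x : ∀ k, FD (S.F k) (Mon M D)} (hx : (gaq Q D).Adf A x) :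
    (gaq P D).Adf A (prt σ hσ x) := by
  intro η hη
  filter_upwards [hx η hη] with k hk
  have hp : (x k).l.T.pb (fun ω => ¬ (gaq P D).φ k ((x k).l.p.π ω) (prm σ hσ ((x k).g ω)) ≤ 2 ^ (η * (S.F k).n)) ≤
      η := by
    refine le_trans (FSp.pb_mono _ ?_) hk.2.2.1
    intro ω hω h2 h3
    apply h2
    refine le_trans ?_ h3
    show phi (S.dl 1 k) (prm σ hσ ((x k).g ω)) (P.v k ((x k).l.p.π ω)) ≤
      phi (S.dl 1 k) ((x k).g ω) (Q.v k ((x k).l.p.π ω))
    rw [P_comp hP]
    exact prm_phi hσ (hk.2.1 ω hω).1.pdM _ _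
  exact ⟨hk.1, fun ω hω => ⟨prm_cpd hσ (hk.2.1 ω hω).1, prm_cpd hσ (hk.2.1 ω hω).1⟩, hp, hp⟩

/-- FORMS IN THE COORDINATES `σ` are admissible in all coordinates -/
theorem exd_adf {A : κ → Part S} {y : ∀ k, FD (S.F k) (Mon m D)} (hy : (gaq P D).Adf A y) :
    (gaq Q D).Adf A (exd σ hσ y) := by
  obtain ⟨K, hK, hT⟩ := adf_sub hy
  obtain ⟨K0, hK0, hone⟩ := (gaq Q D).one
  have hL : S.Sub (fun k => (nn M D : ℝ) * K k + K0 k) := ((S.Sub_const (by
    have := nn_one M D
    positivity)).mul hK).add hK0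
  have hT' : Tendsto (fun k => (y k).l.T.pb (fun ω => ¬ (gaq P D).φ k ((y k).l.p.π ω) ((y k).g ω) ≤ K k)) UF
    (𝓝 0) := hT
  intro η hη
  filter_upwards [hy η hη, hT'.eventually (gt_mem_nhds hη), hL.eventually_le hη, hone] with k hk b3 b4 b5
  have hp : (y k).l.T.pb (fun ω => ¬ (gaq Q D).φ k ((y k).l.p.π ω) (exm σ hσ ((y k).g ω)) ≤ 2 ^ (η * (S.F k).n)) ≤
      η := by
    refine le_trans (FSp.pb_mono _ ?_) b3.le
    intro ω hω h2 h3
    apply h2
    refine le_trans ?_ b4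
    have h4 := exm_phi (hσ := hσ) (hk.2.1 ω hω).1.pdM.nonneg (S.dl 1 k) (Q.v k ((y k).l.p.π ω))
    have h5 : phi (S.dl 1 k) ((y k).g ω) (P.v k ((y k).l.p.π ω)) ≤ K k := h3
    rw [P_comp hP] at h5
    have h6 := b5 _ ((y k).l.p.supp ω hω)
    have h7 : (0 : ℝ) ≤ nn M D := by
      have := nn_one M D
      positivity
    have h8 : nn M D * phi (S.dl 1 k) ((y k).g ω) (Q.v k ((y k).l.p.π ω) ∘ σ) +
        phi (S.dl 1 k) (1 : Matrix (Mon M D) (Mon M D) ℝ) (Q.v k ((y k).l.p.π ω)) ≤ nn M D * K k + K0 k :=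
      add_le_add (mul_le_mul_of_nonneg_left h5 h7) h6
    exact (h4.trans h8).trans (by linarith)
  have hc : ∀ ω, (y k).l.T.μ ω ≠ 0 → Cpd ((gaq Q D).cp k) (exm σ hσ ((y k).g ω)) := fun ω hω =>
    exf_cpd (em_inj hσ) ((gaq P D).one_le_cp k) (hk.2.1 ω hω).1
  exact ⟨hk.1, fun ω hω => ⟨hc ω hω, hc ω hω⟩, hp, hp⟩

omit hP in
/-- THE PART DOMINATES the forms which `x` dominates -/
theorem domJ_prt {A : κ → Part S} {x : ∀ k, FD (S.F k) (Mon M D)} {y : ∀ k, FD (S.F k) (Mon m D)}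
    (hx : (gaq Q D).Adf A x) (hd : DomJ x (exd σ hσ y)) : DomJ (prt σ hσ x) y := by
  intro e he
  refine tendsto_of_tendsto_of_tendsto_of_le_of_le' tendsto_const_nhds (hd e he)
    (Eventually.of_forall fun k => FSp.pb_nonneg _ _) ?_
  filter_upwards [hx 1 one_pos] with k hk
  refine FSp.pb_mono (((x k).l.am (y k).l).sp) ?_
  intro w hw h1 h2
  apply h1
  intro v
  have s1 := ((x k).l.am (y k).l).p1.supp w hw
  have c1 := (hk.2.1 _ s1).1
  exact prm_max hσ c1.pdM (B := (y k).g (((x k).l.am (y k).l).p2.π w)) (fun u => h2 u) v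

section opt
variable {C : LC S} {A : κ → Part S} {x : ∀ k, FD (S.F k) (Mon M D)}

/-- **THE PART OF AN OPTIMAL FORM OF A CLASS IS OPTIMAL** -/
theorem optK_prt (hx : (gaq Q D).OptfK C A x) : (gaq P D).OptfK C A (prt σ hσ x) := by
  refine ⟨⟨prt_adf hP hx.1.1, hx.1.2⟩, fun y hy => ?_⟩
  have h1 : (gaq Q D).AdfK C A (exd σ hσ y) := ⟨exd_adf hP hy.1, hy.2⟩
  have h2 : DomJ x (exd σ hσ y) := fun e he => Gau.OptfK.dom (gaq Q D) hx h1 e he
  exact sc_dom (domJ_prt hx.1.1 h2) (prt_adf hP hx.1.1) hy.1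

/-- **THE PART OF AN OPTIMAL FORM IS OPTIMAL** -/
theorem opt_prt (hx : (gaq Q D).Optf A x) : (gaq P D).Optf A (prt σ hσ x) := by
  refine ⟨prt_adf hP hx.1, fun y hy => ?_⟩
  have h2 : DomJ x (exd σ hσ y) := fun e he => Gau.Optf.dom (gaq Q D) hx (exd_adf hP hy) e he
  exact sc_dom (domJ_prt hx.1 h2) (prt_adf hP hx.1) hy

end opt

/-! ### exponents -/

theorem Jz_prt (k : ℕ) (ω : (S.F k).Ω) {A : Matrix (Mon M D) (Mon M D) ℝ} (hA : PdM A) (i : Fin m) :
    Pool.Agent.Helper89.RAT.Jz P i k ω (prm σ hσ A) ≤ Pool.Agent.Helper89.RAT.Jz Q (σ i) k ω A := by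
  classical
  have h1 := prm_Jq hσ hA (S.dl 1 k) (Q.v k ω) (Pi.single (σ i) 1)
  have h2 : (Pi.single (σ i) 1 : Fin M → ℝ) ∘ σ = Pi.single i 1 := by
    funext a
    by_cases h : a = i
    · rw [h, Function.comp_apply, Pi.single_eq_same, Pi.single_eq_same]
    · rw [Function.comp_apply, Pi.single_eq_of_ne h, Pi.single_eq_of_ne fun h3 => h (hσ h3)]
  rw [h2, Pool.Agent.Helper89.RAT.single_dv, Pool.Agent.Helper89.RAT.single_dv, ← P_comp hP] at h1
  unfold Pool.Agent.Helper89.RAT.Jz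
  linarith

/-- the exponent of one coordinate of the part is below the exponent of the form -/
theorem prt_zx {A : κ → Part S} {x : ∀ k, FD (S.F k) (Mon M D)} (hx : (gaq Q D).Adf A x) (i : Fin m) :
    zx P i (prt σ hσ x) ≤ zx Q (σ i) x := by
  classical
  have hUx := zv_UB (σ i) hx
  have hUy := zv_UB i (prt_adf hP hx (hσ := hσ))
  apply ul_mono hUy hUx
  filter_upwards [hx 1 one_pos] with k hk
  have hn := (S.F k).pos
  unfold zv
  refine Finset.sum_le_sum fun ω _ => ?_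
  by_cases h0 : (x k).l.T.μ ω = 0
  · show (x k).l.T.μ ω * _ ≤ (x k).l.T.μ ω * _
    rw [h0, zero_mul, zero_mul]
  · refine mul_le_mul_of_nonneg_left ?_ ((x k).l.T.nn ω)
    have c1 := (hk.2.1 ω h0).1
    unfold xz
    refine div_le_div_of_nonneg_right (Real.logb_le_logb_of_le (by norm_num) ?_ ?_) (by positivity)
    · exact lt_of_lt_of_le one_pos (Pool.Agent.Helper89.RAT.one_le_Jz P i k _ (prm_pd hσ c1.pdM).nonneg)
    · exact Jz_prt hP k _ c1.pdM i

end

end Pool.Agent.Helper84.KR
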