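import Pool.Agent.Helper84.KR.Shr
import Pool.Agent.Helper84.MT.Vol

/-! THE PART OF A FORM IN SOME OF THE COORDINATES (2): monomials in the coordinates `σ`; size and gradients. -/

set_option autoImplicit false
set_option linter.unusedSectionVars false

namespace Pool.Agent.Helper84.KR

open Matrix MvPolynomial Pool.Agent.Helper89.LX Pool.Agent.Helper95.LF Pool.Agent.Helper3.LF Pool.Agent.Helper84.MT

noncomputable section

variable {m M D : ℕ}

open Classical in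
/-- the monomial in the coordinates `σ` -/
def em (σ : Fin m → Fin M) (hσ : Function.Injective σ) (a : Mon m D) : Mon M D :=
  ⟨fun i => if h : ∃ j, σ j = i then a.1 h.choose else 0, by
    have h1 : ∑ i, ((if h : ∃ j, σ j = i then a.1 h.choose else 0 : Fin (D + 1)) : ℕ) =
        ∑ i ∈ Finset.univ.map ⟨σ, hσ⟩, ((if h : ∃ j, σ j = i then a.1 h.choose else 0 : Fin (D + 1)) : ℕ) := by
      symm
      apply Finset.sum_subset (Finset.subset_univ _)
      intro i _ hi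
      rw [dif_neg]
      · rfl
      · rintro ⟨j, rfl⟩
        exact hi (Finset.mem_map.mpr ⟨j, Finset.mem_univ _, rfl⟩)
    rw [h1, Finset.sum_map]
    refine le_trans (le_of_eq (Finset.sum_congr rfl fun j _ => ?_)) a.2
    have h2 : ∃ j', σ j' = σ j := ⟨j, rfl⟩
    show ((if h : ∃ j', σ j' = σ j then a.1 h.choose else 0 : Fin (D + 1)) : ℕ) = _
    rw [dif_pos h2, hσ h2.choose_spec]⟩

variable {σ : Fin m → Fin M} (hσ : Function.Injective σ)

theorem em_ex (a : Mon m D) : (em σ hσ a).ex = a.ex.mapDomain σ := by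
  classical
  ext i
  by_cases h : ∃ j, σ j = i
  · obtain ⟨j, rfl⟩ := h
    rw [Finsupp.mapDomain_apply hσ, Mon.ex_apply, Mon.ex_apply]
    have h2 : ∃ j', σ j' = σ j := ⟨j, rfl⟩
    show ((if h : ∃ j', σ j' = σ j then a.1 h.choose else 0 : Fin (D + 1)) : ℕ) = _
    rw [dif_pos h2, hσ h2.choose_spec]
  · rw [Finsupp.mapDomain_of_notMem_range _ _ (by rintro ⟨j, hj⟩; exact h ⟨j, hj⟩), Mon.ex_apply]
    show ((if h : ∃ j', σ j' = i then a.1 h.choose else 0 : Fin (D + 1)) : ℕ) = _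
    rw [dif_neg h]
    rfl

theorem ex_inj {N : ℕ} {a b : Mon N D} (h : a.ex = b.ex) : a = b := by
  apply Subtype.ext
  funext i
  apply Fin.ext
  rw [← Mon.ex_apply, ← Mon.ex_apply, h]

theorem em_inj : Function.Injective (em (D := D) σ hσ) := by
  intro a b h
  apply ex_inj
  apply Finsupp.mapDomain_injective hσ
  rw [← em_ex hσ, ← em_ex hσ, h]

theorem em_mon (a : Mon m D) : (em σ hσ a).mon = rename σ a.mon := by
  unfold Mon.mon
  rw [rename_monomial, em_ex]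

/-- values -/
theorem vv_em (x : Fin M → ℝ) : (vv x : Mon M D → ℝ) ∘ em σ hσ = vv (x ∘ σ) := by
  funext a
  show eval x (em σ hσ a).mon = eval (x ∘ σ) a.mon
  rw [em_mon, eval_rename]

/-- derivatives -/
theorem W_em (x v : Fin M → ℝ) : (Wq M D x *ᵥ v) ∘ em σ hσ = Wq m D (x ∘ σ) *ᵥ (v ∘ σ) := by
  classical
  funext a
  show ∑ i, eval x (pderiv i (em σ hσ a).mon) * v i = ∑ j, eval (x ∘ σ) (pderiv j a.mon) * (v ∘ σ) j
  have h1 : ∑ i, eval x (pderiv i (em σ hσ a).mon) * v i =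
      ∑ i ∈ Finset.univ.map ⟨σ, hσ⟩, eval x (pderiv i (em σ hσ a).mon) * v i := by
    symm
    apply Finset.sum_subset (Finset.subset_univ _)
    intro i _ hi
    have h2 : pderiv i (em σ hσ a).mon = 0 := by
      apply pderiv_eq_zero_of_notMem_vars
      rw [em_mon]
      intro h3
      have h4 := vars_rename σ a.mon h3
      obtain ⟨j, -, hj⟩ := Finset.mem_image.mp h4
      exact hi (Finset.mem_map.mpr ⟨j, Finset.mem_univ _, hj⟩)
    rw [h2, map_zero, zero_mul]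
  rw [h1, Finset.sum_map]
  refine Finset.sum_congr rfl fun j _ => ?_
  show eval x (pderiv (σ j) (em σ hσ a).mon) * v (σ j) = _
  rw [em_mon, pderiv_rename hσ, eval_rename]
  rfl

/-! ### nodes -/

open Classical in
/-- extension of a node -/
def ndx (σ : Fin m → Fin M) (j : Fin m → Fin (D + 1)) : Fin M → Fin (D + 1) :=
  fun i => if h : ∃ a, σ a = i then j h.choose else 0

include hσ in
theorem ndx_comp (j : Fin m → Fin (D + 1)) : ndx σ j ∘ σ = j := by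
  funext a
  have h2 : ∃ a', σ a' = σ a := ⟨a, rfl⟩
  show (if h : ∃ a', σ a' = σ a then j h.choose else 0) = _
  rw [dif_pos h2, hσ h2.choose_spec]

theorem nodp_comp (x : Fin M → ℝ) (r : ℝ) (j : Fin M → Fin (D + 1)) :
    nodp D x r j ∘ σ = nodp D (x ∘ σ) r (j ∘ σ) := rfl

include hσ in
/-- sums over the nodes of the projection -/
theorem sum_nod_le (f : (Fin m → Fin (D + 1)) → ℝ) (g : (Fin M → Fin (D + 1)) → ℝ) (hg : ∀ j, 0 ≤ g j)
    (h : ∀ j, f (j ∘ σ) ≤ g j) : ∑ j, f j ≤ ∑ j, g j := by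
  classical
  have hi : Function.Injective (ndx (D := D) σ) := by
    intro a b hab
    rw [← ndx_comp hσ a, ← ndx_comp hσ b, hab]
  calc ∑ j, f j ≤ ∑ j, g (ndx σ j) := Finset.sum_le_sum fun j _ => by
        have h1 := h (ndx σ j)
        rwa [ndx_comp hσ] at h1
    _ = ∑ j ∈ Finset.univ.map ⟨ndx σ, hi⟩, g j := by
        rw [Finset.sum_map]
        rfl
    _ ≤ ∑ j, g j := Finset.sum_le_sum_of_subset_of_nonneg (Finset.subset_univ _) fun j _ _ => hg j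

/-- sums over the nodes of the space -/
theorem sum_nod_ge (f : (Fin m → Fin (D + 1)) → ℝ) (hf : ∀ j, 0 ≤ f j) :
    ∑ j : Fin M → Fin (D + 1), f (j ∘ σ) ≤ nn M D * ∑ j, f j := by
  calc ∑ j : Fin M → Fin (D + 1), f (j ∘ σ) ≤ ∑ _j : Fin M → Fin (D + 1), ∑ j, f j :=
        Finset.sum_le_sum fun j _ => Finset.single_le_sum (f := f) (fun i _ => hf i) (Finset.mem_univ _)
    _ = nn M D * ∑ j, f j := by
        rw [Finset.sum_const, nsmul_eq_mul, card_nodes]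

/-! ### the part of a form -/

/-- the part of a form in the coordinates `σ` -/
def prm (σ : Fin m → Fin M) (hσ : Function.Injective σ) (A : Matrix (Mon M D) (Mon M D) ℝ) :
    Matrix (Mon m D) (Mon m D) ℝ := shr (em σ hσ) A

/-- a form in the coordinates `σ` as a form in all coordinates -/
def exm (σ : Fin m → Fin M) (hσ : Function.Injective σ) (B : Matrix (Mon m D) (Mon m D) ℝ) :
    Matrix (Mon M D) (Mon M D) ℝ := exf (em σ hσ) B

variable {A : Matrix (Mon M D) (Mon M D) ℝ} {B : Matrix (Mon m D) (Mon m D) ℝ}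

theorem prm_pd (hA : PdM A) : PdM (prm σ hσ A) := shr_pd (em_inj hσ) hA

theorem prm_le (hA : PdM A) (v : Mon M D → ℝ) : qf (prm σ hσ A) (v ∘ em σ hσ) ≤ qf A v := shr_le (em_inj hσ) hA v

theorem prm_cpd {c : ℝ} (hA : Cpd c A) : Cpd c (prm σ hσ A) := shr_cpd (em_inj hσ) hA

/-- forms dominated by `A` in the coordinates `σ` are dominated by the part -/
theorem prm_max (hA : PdM A) {c : ℝ} (h : ∀ v, qf (exm σ hσ B) v ≤ c * qf A v) (w : Mon m D → ℝ) :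
    qf B w ≤ c * qf (prm σ hσ A) w := shr_max (em_inj hσ) hA (fun v => (exf_ge B v).trans (h v)) w

theorem prm_mono {A' : Matrix (Mon M D) (Mon M D) ℝ} (hA : PdM A) (hA' : PdM A') {c : ℝ}
    (h : ∀ v, qf A v ≤ c * qf A' v) (w : Mon m D → ℝ) : qf (prm σ hσ A) w ≤ c * qf (prm σ hσ A') w :=
  shr_mono (em_inj hσ) hA hA' h w

/-- SIZE OF THE PART -/
theorem prm_phi (hA : PdM A) (r : ℝ) (x : Fin M → ℝ) : phi r (prm σ hσ A) (x ∘ σ) ≤ phi r A x := by
  unfold phi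
  apply sum_nod_le hσ (fun j => vv (nodp D (x ∘ σ) r j) ⬝ᵥ (prm σ hσ A *ᵥ vv (nodp D (x ∘ σ) r j)))
    (fun j => vv (nodp D x r j) ⬝ᵥ (A *ᵥ vv (nodp D x r j))) (fun j => hA.nonneg _)
  intro j
  have h1 := prm_le hσ hA (vv (nodp D x r j))
  rw [vv_em, nodp_comp] at h1
  exact h1

/-- GRADIENTS OF THE PART -/
theorem prm_Jq (hA : PdM A) (r : ℝ) (x v : Fin M → ℝ) :
    (v ∘ σ) ⬝ᵥ (Jq r (prm σ hσ A) (x ∘ σ) *ᵥ (v ∘ σ)) ≤ v ⬝ᵥ (Jq r A x *ᵥ v) := by
  rw [Jq_qf, Jq_qf]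
  apply sum_nod_le hσ (fun j => (Wq m D (nodp D (x ∘ σ) r j) *ᵥ (v ∘ σ)) ⬝ᵥ (prm σ hσ A *ᵥ
    (Wq m D (nodp D (x ∘ σ) r j) *ᵥ (v ∘ σ)))) (fun j => (Wq M D (nodp D x r j) *ᵥ v) ⬝ᵥ (A *ᵥ
    (Wq M D (nodp D x r j) *ᵥ v))) (fun j => hA.nonneg _)
  intro j
  have h1 := prm_le hσ hA (Wq M D (nodp D x r j) *ᵥ v)
  rw [W_em, nodp_comp] at h1
  exact h1

/-- SIZE OF THE EXTENSION -/
theorem exm_phi (hB : ∀ v, 0 ≤ v ⬝ᵥ (B *ᵥ v)) (r : ℝ) (x : Fin M → ℝ) :
    phi r (exm σ hσ B) x ≤ nn M D * phi r B (x ∘ σ) + phi r (1 : Matrix (Mon M D) (Mon M D) ℝ) x := by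
  unfold phi
  refine le_trans ?_ (add_le_add (sum_nod_ge (M := M) (σ := σ)
    (fun j => vv (nodp D (x ∘ σ) r j) ⬝ᵥ (B *ᵥ vv (nodp D (x ∘ σ) r j))) fun j => hB _) le_rfl)
  rw [← Finset.sum_add_distrib]
  refine Finset.sum_le_sum fun j _ => ?_
  have h1 := exf_le (e := em σ hσ) B (vv (nodp D x r j))
  rw [vv_em, nodp_comp] at h1
  rw [Matrix.one_mulVec]
  exact h1

/-- GRADIENTS OF THE EXTENSION -/
theorem exm_Jq (hB : ∀ v, 0 ≤ v ⬝ᵥ (B *ᵥ v)) (r : ℝ) (x v : Fin M → ℝ) :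
    (v ∘ σ) ⬝ᵥ (Jq r B (x ∘ σ) *ᵥ (v ∘ σ)) ≤ v ⬝ᵥ (Jq r (exm σ hσ B) x *ᵥ v) := by
  rw [Jq_qf, Jq_qf]
  have h0 : ∀ u, 0 ≤ u ⬝ᵥ (exm σ hσ B *ᵥ u) := fun u => (hB (u ∘ em σ hσ)).trans (exf_ge (e := em σ hσ) B u)
  apply sum_nod_le hσ (fun j => (Wq m D (nodp D (x ∘ σ) r j) *ᵥ (v ∘ σ)) ⬝ᵥ (B *ᵥ
    (Wq m D (nodp D (x ∘ σ) r j) *ᵥ (v ∘ σ)))) (fun j => (Wq M D (nodp D x r j) *ᵥ v) ⬝ᵥ (exm σ hσ B *ᵥ
    (Wq M D (nodp D x r j) *ᵥ v))) (fun j => h0 _)
  intro j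
  have h1 := exf_ge (e := em σ hσ) B (Wq M D (nodp D x r j) *ᵥ v)
  rw [W_em, nodp_comp] at h1
  exact h1

/-- the part of the part -/
theorem em_comp {l : ℕ} {τ : Fin l → Fin m} (hτ : Function.Injective τ) (a : Mon l D) :
    em σ hσ (em τ hτ a) = em (σ ∘ τ) (hσ.comp hτ) a := by
  apply ex_inj
  rw [em_ex, em_ex, em_ex, ← Finsupp.mapDomain_comp]

/-- THE PART OF THE PART, both inequalities -/
theorem prm_prm {l : ℕ} {τ : Fin l → Fin m} (hτ : Function.Injective τ) (hA : PdM A) (w : Mon l D → ℝ) :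
    qf (prm (σ ∘ τ) (hσ.comp hτ) A) w = qf (prm τ hτ (prm σ hσ A)) w := by
  have e1 : ∀ v : Mon M D → ℝ, (v ∘ em σ hσ) ∘ em τ hτ = v ∘ em (σ ∘ τ) (hσ.comp hτ) := by
    intro v
    funext a
    show v (em σ hσ (em τ hτ a)) = _
    rw [em_comp]
    rfl
  have hB := prm_pd hσ hA
  apply le_antisymm
  · have h1 := shr_max (e := em τ hτ) (em_inj hτ) hB (C := prm (σ ∘ τ) (hσ.comp hτ) A) (c := 1) (by
      intro u
      rw [one_mul]
      have h2 := shr_att (e := em σ hσ) (em_inj hσ) hA u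
      have h3 := prm_le (hσ.comp hτ) hA (oex (em σ hσ) A u)
      rw [← e1, oex_comp (em_inj hσ) hA] at h3
      exact h3.trans (le_of_eq h2.symm)) w
    rwa [one_mul] at h1
  · have h1 := shr_max (e := em (σ ∘ τ) (hσ.comp hτ)) (em_inj (hσ.comp hτ)) hA
      (C := prm τ hτ (prm σ hσ A)) (c := 1) (by
      intro v
      rw [one_mul, ← e1]
      exact (prm_le hτ hB _).trans (prm_le hσ hA v)) w
    rwa [one_mul] at h1

end

end Pool.Agent.Helper84.KR
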