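import Pool.Agent.Helper49.KL.Rig
import Pool.Agent.Helper49.MD.Kd
import Pool.Agent.Helper89.RAK.Cmp

/-! THE RATE OF AN OPTIMAL LITERAL K-FORM over the literal K-labels of another family of conditions: finite literal
labels with forms, the predicate `Rt`, its description at finite level, one base for countably many families, the
diagonal. -/

set_option autoImplicit false

namespace Pool.Agent.Helper84.KR

open Finset Filter Topology Matrix Pool.Agent.Helper69.RK Pool.Agent.Helper31.EC Pool.Agent.Helper31.EC.Sp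
open Pool.Agent.Helper40.EL Pool.Agent.Helper89.LX Pool.Agent.Helper84.MT Pool.Agent.Helper49.KL

noncomputable section

/-- a finite literal label with a literal form -/
structure FLF (F : FSp) (ι : Type) where
  Z : Setoid F.Ω
  G : F.Ω → Matrix ι ι ℝ
  meas : ∀ ω ω', F.μ ω ≠ 0 → F.μ ω' ≠ 0 → Z ω ω' → F.Z ω ω' → G ω = G ω'

/-- a finite literal label -/
def fz (F : FSp) (Z : Setoid F.Ω) : FLab F := ⟨(FLab.triv F).T, (FLab.triv F).p, (FLab.triv F).hn, Z⟩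

theorem fz_leak {F : FSp} (Z : Setoid F.Ω) (a : FL F) : (fz F Z).leak a = h (fc Z) a := by
  have key : ∀ {L : Type} [PM L] (v o a : L), v ≤ o → I v o a = Pool.Agent.Helper31.EC.h v a := by
    intro L _ v o a hvo
    rw [I_eq, h_zero (hvo.trans le_sup_left), sub_zero]
  have h1 : (fz F Z).leak a = Pool.Agent.Helper31.EC.h ((FLab.triv F).p.map (fc Z)) ((FLab.triv F).p.map a) :=
    key _ _ _ ((FLab.triv F).p.map_le_top (fc Z))
  rw [h1, FPj.h_map]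

/-- the label with forms -/
def FLF.fd {F : FSp} {ι : Type} (f : FLF F ι) : FD F ι where
  l := fz F f.Z
  g := f.G
  g' := f.G
  meas := fun ω ω' a b c d => ⟨f.meas ω ω' a b c d, f.meas ω ω' a b c d⟩

variable {S : Sp} {ι : Type}

/-- the finite label of the index `k` -/
def lat (L : LF S ι) (k : ℕ) : FLF (S.F k) ι := ⟨L.Z k, L.G k, L.meas k⟩

/-- a sequence of finite literal labels with forms -/
def ofF (f : ∀ k, FLF (S.F k) ι) : LF S ι := ⟨fun k => (f k).Z, fun k => (f k).G, fun k => (f k).meas⟩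

theorem lat_fd (L : LF S ι) (k : ℕ) : (lat L k).fd = L.fd k := rfl

theorem ofF_fd (f : ∀ k, FLF (S.F k) ι) (k : ℕ) : (ofF f).fd k = (f k).fd := rfl

/-- `P` costs at most the rate `r` over `Z` -/
def Cd (P Z : ∀ k, Setoid (S.F k).Ω) (r : ℝ) : Prop :=
  ∀ ε : ℝ, 0 < ε → ∀ᶠ k in UF, h (fc (P k) : FL (S.F k)) (fc (Z k)) ≤ (r + ε) * (S.F k).n

theorem Cd.mono {P Z : ∀ k, Setoid (S.F k).Ω} {r r' : ℝ} (h : Cd P Z r) (hr : r ≤ r') : Cd P Z r' := by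
  intro ε hε
  filter_upwards [h ε hε] with k hk
  have hn := (S.F k).pos
  have : (r + ε) * (S.F k).n ≤ (r' + ε) * (S.F k).n := mul_le_mul_of_nonneg_right (by linarith) hn.le
  linarith

/-- finer bases -/
theorem Cd.base {P Z Z' : ∀ k, Setoid (S.F k).Ω} {r : ℝ} (h : Cd P Z r) (hZ : ∀ᶠ k in UF, Z' k ≤ Z k) : Cd P Z' r := by
  intro ε hε
  filter_upwards [h ε hε, hZ] with k hk hz
  exact (h_anti (fc_mono hz)).trans hk

/-- coarser labels -/
theorem Cd.coarse {P P' Z : ∀ k, Setoid (S.F k).Ω} {r : ℝ} (h : Cd P Z r) (hP : ∀ᶠ k in UF, P k ≤ P' k) : Cd P' Z r := by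
  intro ε hε
  filter_upwards [h ε hε, hP] with k hk hp
  exact (h_mono (fc_mono hp)).trans hk

/-- the partition is a function of `R` and of the base -/
def Litv (R Z : ∀ k, Setoid (S.F k).Ω) : Prop := ∀ᶠ k in UF, R k ⊓ (S.F k).Z ≤ Z k

theorem Litv.inf {R Z Z' : ∀ k, Setoid (S.F k).Ω} (h : Litv R Z) (h' : Litv R Z') : Litv R (fun k => Z k ⊓ Z' k) := by
  filter_upwards [h, h'] with k a b
  exact le_inf a b

theorem Litv.kz {R Z : ∀ k, Setoid (S.F k).Ω} (h : Litv R Z) : (LC.kz fun k => fc (R k)).ev (Lab.ofZ Z) := kz_ofZ h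

section rate

variable [Fintype ι] [DecidableEq ι] (Φ : Gau S ι) {κ κ' : Type}

/-- THE RATE: some literal form which is optimal for the K-labels of the conditions `B` costs at most the rate `r` over
some literal K-label of the conditions `A` -/
def Rt (R : ∀ k, Setoid (S.F k).Ω) (A : κ → Part S) (B : κ' → Part S) (r : ℝ) : Prop :=
  ∃ (Z : ∀ k, Setoid (S.F k).Ω) (L : LF S ι), Litv R Z ∧ (Lab.ofZ Z).DMf A ∧ Litv R L.Z ∧
    Φ.OptfK (LC.kz fun k => fc (R k)) B L.fd ∧ Cd L.Z Z r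

/-- the finite predicate -/
def RtF (F : FSp) (φ : F.Ω → Matrix ι ι ℝ → ℝ) (cp : ℝ) (R : Setoid F.Ω) (A : κ → FL F) (B : κ' → FL F)
    (v r δ : ℝ) : Prop :=
  ∃ (Z : Setoid F.Ω) (f : FLF F ι), R ⊓ F.Z ≤ Z ∧ (∀ i, h (fc Z) (A i) ≤ δ * F.n) ∧ R ⊓ F.Z ≤ f.Z ∧
    (∀ i, h (fc f.Z) (B i) ≤ δ * F.n) ∧ (∀ ω, F.μ ω ≠ 0 → Cpd cp (f.G ω)) ∧
    F.pb (fun ω => ¬ φ ω (f.G ω) ≤ 2 ^ (δ * F.n)) ≤ δ ∧ v - δ ≤ f.fd.sc / F.n ∧
    h (fc f.Z) (fc Z) ≤ (r + δ) * F.n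

theorem RtF.mono {F : FSp} {φ : F.Ω → Matrix ι ι ℝ → ℝ} {cp : ℝ} {R : Setoid F.Ω} {A : κ → FL F} {B : κ' → FL F}
    {v v' r r' δ δ' : ℝ} (hx : RtF F φ cp R A B v r δ) (h1 : δ ≤ δ') (h2 : v' - δ' ≤ v - δ) (h3 : r + δ ≤ r' + δ') :
    RtF F φ cp R A B v' r' δ' := by
  obtain ⟨Z, f, a1, a2, a3, a4, a5, a6, a7, a8⟩ := hx
  have hn := F.pos
  have h4 : δ * F.n ≤ δ' * F.n := mul_le_mul_of_nonneg_right h1 hn.le
  have h5 : (2 : ℝ) ^ (δ * F.n) ≤ 2 ^ (δ' * F.n) := Real.rpow_le_rpow_of_exponent_le (by norm_num) h4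
  refine ⟨Z, f, a1, fun i => (a2 i).trans h4, a3, fun i => (a4 i).trans h4, a5, ?_, by linarith, ?_⟩
  · refine le_trans (F.pb_mono ?_) (a6.trans h1)
    intro ω _ h6 h7
    exact h6 (h7.trans h5)
  · exact a8.trans (mul_le_mul_of_nonneg_right h3 hn.le)

variable {Φ} {R : ∀ k, Setoid (S.F k).Ω} {A : κ → Part S} {B : κ' → Part S} {r : ℝ}

theorem Rt.mono {r' : ℝ} (h : Rt Φ R A B r) (hr : r ≤ r') : Rt Φ R A B r' := by
  obtain ⟨Z, L, a1, a2, a3, a4, a5⟩ := h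
  exact ⟨Z, L, a1, a2, a3, a4, a5.mono hr⟩

omit [Fintype ι] [DecidableEq ι] in
theorem lf_leak (L : LF S ι) (k : ℕ) (a : FL (S.F k)) : (L.fd k).l.leak a = h (fc (L.Z k)) a := fz_leak (L.Z k) a

/-- the admissibility of a literal form -/
theorem admf_lf {L : LF S ι} {δ : ℝ} {k : ℕ} : Φ.Admf B δ k (L.fd k) ↔ (∀ i, h (fc (L.Z k)) (B i k) ≤ δ * (S.F k).n) ∧
    (∀ ω, (S.F k).μ ω ≠ 0 → Cpd (Φ.cp k) (L.G k ω)) ∧
    (S.F k).pb (fun ω => ¬ Φ.φ k ω (L.G k ω) ≤ 2 ^ (δ * (S.F k).n)) ≤ δ := by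
  constructor
  · rintro ⟨a, b, c, -⟩
    exact ⟨fun i => by rw [← lf_leak L k]; exact a i, fun ω hω => (b ω hω).1, c⟩
  · rintro ⟨a, b, c⟩
    exact ⟨fun i => by rw [lf_leak L k]; exact a i, fun ω hω => ⟨b ω hω, b ω hω⟩, c, c⟩

omit [Fintype ι] [DecidableEq ι] in
/-- a literal form of a literal label has no leak at `R` -/
theorem kz_lf {L : LF S ι} (h : Litv R L.Z) : (LC.kz fun k => fc (R k)).ev (fun k => (L.fd k).l) := kz_ofZ h

/-- **THE DESCRIPTION AT FINITE LEVEL** -/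
theorem rt_iff [Finite κ] [Finite κ'] {x₀ : ∀ k, FD (S.F k) ι} (hx : Φ.OptfK (LC.kz fun k => fc (R k)) B x₀) :
    Rt Φ R A B r ↔ ∀ δ : ℝ, 0 < δ → ∀ᶠ k in UF, RtF (S.F k) (Φ.φ k) (Φ.cp k) (R k) (fun i => A i k) (fun i => B i k)
      (ul (fun k => (x₀ k).sc / (S.F k).n)) r δ := by
  constructor
  · rintro ⟨Z, L, a1, a2, a3, a4, a5⟩ δ hδ
    have hv : ul (fun k => (x₀ k).sc / (S.F k).n) ≤ ul (fun k => (L.fd k).sc / (S.F k).n) := a4.2 x₀ hx.1
    have h1 : ∀ᶠ k in UF, ul (fun k => (x₀ k).sc / (S.F k).n) - δ < (L.fd k).sc / (S.F k).n :=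
      (ul_tendsto (Gau.sc_UBf Φ a4.1.1)).eventually (lt_mem_nhds (by linarith))
    have h2 : ∀ᶠ k in UF, ∀ i, ((Lab.ofZ Z) k).leak (A i k) ≤ δ * (S.F k).n := leak_evf a2 hδ
    filter_upwards [a1, h2, a3, a4.1.1 δ hδ, h1, a5 δ hδ] with k b1 b2 b3 b4 b5 b6
    obtain ⟨c1, c2, c3⟩ := admf_lf.mp b4
    refine ⟨Z k, lat L k, b1, fun i => ?_, b3, c1, c2, c3, b5.le, b6⟩
    have h3 := b2 i
    rw [Lab.ofZ_leak] at h3
    exact h3
  · intro hF
    have hd : ∀ j : ℕ, ∀ᶠ k in UF, RtF (S.F k) (Φ.φ k) (Φ.cp k) (R k) (fun i => A i k) (fun i => B i k)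
        (ul (fun k => (x₀ k).sc / (S.F k).n)) r (1 / ((j : ℝ) + 1)) := fun j => hF _ (by positivity)
    obtain ⟨J, hJ, hG⟩ := dia _ hd
    have hG' : ∀ᶠ k in UF, RtF (S.F k) (Φ.φ k) (Φ.cp k) (R k) (fun i => A i k) (fun i => B i k)
        (ul (fun k => (x₀ k).sc / (S.F k).n)) r (1 / ((J k : ℝ) + 1)) := hG.mono fun k hk => hk (J k) le_rfl
    classical
    let T : ∀ k, Setoid (S.F k).Ω × FLF (S.F k) ι := fun k =>
      if hk : RtF (S.F k) (Φ.φ k) (Φ.cp k) (R k) (fun i => A i k) (fun i => B i k)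
        (ul (fun k => (x₀ k).sc / (S.F k).n)) r (1 / ((J k : ℝ) + 1)) then (hk.choose, hk.choose_spec.choose)
      else (⊤, ⟨⊤, fun _ => 1, fun _ _ _ _ _ _ => rfl⟩)
    have hT : ∀ᶠ k in UF, R k ⊓ (S.F k).Z ≤ (T k).1 ∧
        (∀ i, h (fc (T k).1) (A i k) ≤ 1 / ((J k : ℝ) + 1) * (S.F k).n) ∧ R k ⊓ (S.F k).Z ≤ (T k).2.Z ∧
        (∀ i, h (fc (T k).2.Z) (B i k) ≤ 1 / ((J k : ℝ) + 1) * (S.F k).n) ∧
        (∀ ω, (S.F k).μ ω ≠ 0 → Cpd (Φ.cp k) ((T k).2.G ω)) ∧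
        (S.F k).pb (fun ω => ¬ Φ.φ k ω ((T k).2.G ω) ≤ 2 ^ (1 / ((J k : ℝ) + 1) * (S.F k).n)) ≤
          1 / ((J k : ℝ) + 1) ∧
        ul (fun k => (x₀ k).sc / (S.F k).n) - 1 / ((J k : ℝ) + 1) ≤ (T k).2.fd.sc / (S.F k).n ∧
        h (fc (T k).2.Z) (fc (T k).1) ≤ (r + 1 / ((J k : ℝ) + 1)) * (S.F k).n := by
      filter_upwards [hG'] with k hk
      have e : T k = (hk.choose, hk.choose_spec.choose) := dif_pos hk
      rw [e]
      exact hk.choose_spec.choose_spec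
    have h0 := Pool.Agent.Helper49.MD.inv_tendsto hJ
    set L : LF S ι := ofF fun k => (T k).2 with hL
    have hlit : Litv R L.Z := hT.mono fun k hk => hk.2.2.1
    have hadm : Φ.Adf B L.fd := by
      intro η hη
      filter_upwards [hT, h0.eventually (gt_mem_nhds hη)] with k b1 b2
      refine Gau.Admf.mono Φ b2.le (admf_lf.mpr ?_)
      exact ⟨b1.2.2.2.1, b1.2.2.2.2.1, b1.2.2.2.2.2.1⟩
    have hadK : Φ.AdfK (LC.kz fun k => fc (R k)) B L.fd := ⟨hadm, kz_lf hlit⟩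
    refine ⟨fun k => (T k).1, L, hT.mono fun k hk => hk.1, ?_, hlit, ⟨hadK, fun y hy => ?_⟩, ?_⟩
    · rw [Lab.ofZ_DMf]
      intro i
      refine tendsto_of_tendsto_of_tendsto_of_le_of_le' tendsto_const_nhds h0 ?_ ?_
      · exact Eventually.of_forall fun k => div_nonneg (h_nonneg _ _) (S.F k).pos.le
      · filter_upwards [hT] with k hk
        rw [div_le_iff₀ (S.F k).pos]
        exact hk.2.1 i
    · refine (hx.2 y hy).trans ?_
      have t1 : Tendsto (fun k => ul (fun k => (x₀ k).sc / (S.F k).n) - 1 / ((J k : ℝ) + 1)) UF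
          (𝓝 (ul (fun k => (x₀ k).sc / (S.F k).n))) := by
        have := h0.const_sub (ul (fun k => (x₀ k).sc / (S.F k).n))
        rwa [sub_zero] at this
      exact le_of_tendsto_of_tendsto t1 (ul_tendsto (Gau.sc_UBf Φ hadm)) (hT.mono fun k hk => hk.2.2.2.2.2.2.1)
    · intro ε hε
      filter_upwards [hT, h0.eventually (gt_mem_nhds hε)] with k b1 b2
      refine b1.2.2.2.2.2.2.2.trans (mul_le_mul_of_nonneg_right ?_ (S.F k).pos.le)
      linarith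

/-- the rate is attained -/
theorem Rt.of_eps [Finite κ] [Finite κ'] (h : ∀ ε : ℝ, 0 < ε → Rt Φ R A B (r + ε)) : Rt Φ R A B r := by
  obtain ⟨Z, L, a1, a2, a3, a4, a5⟩ := h 1 one_pos
  rw [rt_iff a4]
  intro δ hδ
  have h1 := (rt_iff a4).mp (h (δ / 2) (by linarith)) (δ / 2) (by linarith)
  filter_upwards [h1] with k hk
  exact hk.mono (by linarith) (by linarith) (by linarith)

end rate

end

end Pool.Agent.Helper84.KR
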