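import Pool.Agent.Helper84.KR.Aj
import Pool.Agent.Helper84.KR.Rate
import Pool.Agent.Helper14.MT1.Frm1

/-! THE LEVEL FORM of one coordinate: if the cells of level `c` of the coordinate `i` are known to a label of the class
then the exponent of `i` of an optimal form of the class is at least `c`. -/

set_option autoImplicit false

namespace Pool.Agent.Helper84.KR

open Finset Filter Topology Matrix Pool.Agent.Helper69.RK Pool.Agent.Helper31.EC Pool.Agent.Helper31.EC.Sp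
open Pool.Agent.Helper40.EL Pool.Agent.Helper89.LX Pool.Agent.Helper3.LF Pool.Agent.Helper84.MT
open Pool.Agent.Helper95.LF Pool.Agent.Helper89.RAK Pool.Agent.Helper49.KL
open Pool.Agent.Helper14.MC (adf_sub gx vx vol_eq vx_UB vx_nonneg)
open Pool.Agent.Helper89.RAT (zx zv xz zv_UB xz_bd Jz single_dv)
open Pool.Agent.Helper14.MT1 (fm fm_Cpd fm_phi fm_GQ fm_ge fm_symm)

noncomputable section

variable {S : Sp} {M D : ℕ} {κ : Type}

/-- the corner of the cell -/
def cnr (z : S.VV 1) (c : ℝ) (k : ℕ) (ω : (S.F k).Ω) : ℝ := (z.cellv c k ω 0) * S.dl c k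

/-- the level form, literal -/
def lvl (hD : 1 ≤ D) (z : S.VV 1) (c : ℝ) : LF S (Mon 1 D) where
  Z := fun k => Setoid.ker (z.cellv c k)
  G := fun k ω => fm hD (cnr z c k ω) ((S.dl c k) ^ 2)⁻¹
  meas := fun k ω ω' _ _ h _ => by
    have h1 : z.cellv c k ω = z.cellv c k ω' := h
    unfold cnr
    rw [h1]

theorem cnr_near (z : S.VV 1) (c : ℝ) (k : ℕ) (ω : (S.F k).Ω) : |z.v k ω 0 - cnr z c k ω| ≤ S.dl c k := by
  have hδ := S.dl_pos c k
  have e1 : cnr z c k ω = ⌊z.v k ω 0 / S.dl c k⌋ * S.dl c k := rfl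
  rw [e1]
  have f1 := Int.floor_le (z.v k ω 0 / S.dl c k)
  have f2 := Int.lt_floor_add_one (z.v k ω 0 / S.dl c k)
  rw [le_div_iff₀ hδ] at f1
  rw [div_lt_iff₀ hδ, add_mul, one_mul] at f2
  rw [abs_le]
  constructor <;> linarith

/-- the level form is admissible -/
theorem lvl_adf [Finite κ] (hD : 1 ≤ D) (z : S.VV 1) {c : ℝ} (h0 : 0 ≤ c) (h1 : c ≤ 1) {A : κ → Part S}
    (hl : (Lab.ofZ fun k => Setoid.ker (z.cellv c k)).DMf A) : (gaq z D).Adf A (lvl hD z c).fd := by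
  intro η hη
  obtain ⟨K1, hK1, hone⟩ := (gaq z D).one
  obtain ⟨C, hC, hb⟩ := z.bd
  have hleak := leak_evf hl hη
  have hcap : S.Sub (fun k => 1 + 2 * (1 + (C k + 1) ^ 2)) :=
    (S.Sub_const zero_le_one).add ((S.Sub_const (by norm_num)).mul ((S.Sub_const zero_le_one).add
      (Sub_pow' (hC.add (S.Sub_const zero_le_one)) 2)))
  have hphi : S.Sub (fun k => K1 k + 4 * nn 1 D) := hK1.add (S.Sub_const (by
    have := nn_one 1 D
    linarith))
  filter_upwards [hleak, hone, hb, hcap.eventually_le (show (0 : ℝ) < 2 by norm_num), hphi.eventually_le hη, hC.1]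
    with k h1' h2 h3 h5 h6 hC0
  have hn := (S.F k).pos
  have key : ∀ ω, (S.F k).μ ω ≠ 0 → Cpd ((gaq z D).cp k) (fm hD (cnr z c k ω) ((S.dl c k) ^ 2)⁻¹) ∧
      (gaq z D).φ k ω (fm hD (cnr z c k ω) ((S.dl c k) ^ 2)⁻¹) ≤ 2 ^ (η * (S.F k).n) := by
    intro ω hμ
    have hδ := S.dl_pos c k
    have hδ1 : S.dl c k ≤ 1 := by
      rw [← S.dl_zero k]
      exact S.dl_anti h0 k
    have hrd : S.dl 1 k ≤ S.dl c k := S.dl_anti h1 k
    have hcor := cnr_near z c k ω
    have hw : 0 ≤ ((S.dl c k) ^ 2)⁻¹ := by positivity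
    have hw1 : ((S.dl c k) ^ 2)⁻¹ ≤ 2 ^ (2 * (S.F k).n) := by
      have e1 : ((S.dl c k) ^ 2)⁻¹ = 2 ^ (2 * (c * (S.F k).n)) := by
        unfold Sp.dl
        rw [← Real.rpow_natCast, ← Real.rpow_mul (by norm_num), ← Real.rpow_neg (by norm_num)]
        congr 1
        push_cast
        ring
      rw [e1]
      apply Real.rpow_le_rpow_of_exponent_le (by norm_num)
      nlinarith
    have ha : (cnr z c k ω) ^ 2 ≤ (C k + 1) ^ 2 := by
      rw [← sq_abs]
      apply pow_le_pow_left₀ (abs_nonneg _)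
      have g1 := h3 ω hμ 0
      rw [abs_le] at g1 hcor ⊢
      constructor <;> linarith [g1.1, g1.2, hcor.1, hcor.2]
    constructor
    · apply fm_Cpd hD _ _ hw
      have g2 : (2 : ℝ) ^ (2 * (S.F k).n) * (1 + 2 * (1 + (C k + 1) ^ 2)) ≤
          2 ^ (2 * (S.F k).n) * 2 ^ (2 * (S.F k).n) := mul_le_mul_of_nonneg_left (by linarith) (by positivity)
      have g3 : (2 : ℝ) ^ (2 * (S.F k).n) * 2 ^ (2 * (S.F k).n) ≤ (gaq z D).cp k := by
        rw [← Real.rpow_add (by norm_num)]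
        apply Real.rpow_le_rpow_of_exponent_le (by norm_num)
        have g4 : (gaq z D).C = 2 * D + 1 := rfl
        have g5 : (1 : ℝ) ≤ D := by exact_mod_cast hD
        rw [g4]
        nlinarith
      have g6 : (1 : ℝ) ≤ 2 ^ (2 * (S.F k).n) := Real.one_le_rpow (by norm_num) (by positivity)
      have g7 : ((S.dl c k) ^ 2)⁻¹ * (2 * (1 + (cnr z c k ω) ^ 2)) ≤ 2 ^ (2 * (S.F k).n) * (2 * (1 + (C k + 1) ^ 2)) :=
        mul_le_mul hw1 (by linarith) (by positivity) (by positivity)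
      linarith
    · have g1 := fm_phi hD (cnr z c k ω) _ hw (S.dl 1 k) (S.dl c k) (S.dl_pos 1 k).le hrd (z.v k ω) hcor
      rw [inv_mul_cancel₀ (by positivity), mul_one] at g1
      refine g1.trans (le_trans ?_ h6)
      have g2 := h2 ω hμ
      have g3 : (gaq z D).φ k ω 1 = phi (D := D) (S.dl 1 k) 1 (z.v k ω) := rfl
      linarith
  refine admf_lf.mpr ⟨fun i => ?_, fun ω hω => (key ω hω).1, ?_⟩
  · have h7 : ((lvl hD z c).fd k).l.leak (A i k) ≤ η * (S.F k).n := h1' i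
    rwa [lf_leak (lvl hD z c) k (A i k)] at h7
  · have g1 : (S.F k).pb (fun ω => ¬ (gaq z D).φ k ω ((lvl hD z c).G k ω) ≤ 2 ^ (η * (S.F k).n)) ≤
        (S.F k).pb (fun _ => False) := by
      apply FSp.pb_mono
      intro ω h7 h8
      exact h8 (key ω h7).2
    have g2 : (S.F k).pb (fun _ => False) = 0 := by
      unfold FSp.pb mass
      apply Finset.sum_eq_zero
      intro ω _
      exact res_neg _ _ _ not_false
    rw [g2] at g1
    exact g1.trans hη.le

/-- the exponent of the level form -/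
theorem lvl_xz (hD : 1 ≤ D) (z : S.VV 1) (c : ℝ) (k : ℕ) (ω : (S.F k).Ω) {Q : S.VV M} {i : Fin M}
    (hz : ∀ k ω, z.v k ω 0 = Q.v k ω i) (hσ : Function.Injective fun _ : Fin 1 => i) :
    c ≤ xz Q i k ω (exm (fun _ : Fin 1 => i) hσ ((lvl hD z c).G k ω)) := by
  have hn := (S.F k).pos
  have hw : 0 ≤ ((S.dl c k) ^ 2)⁻¹ := by positivity
  have hB : ∀ v, 0 ≤ v ⬝ᵥ ((lvl hD z c).G k ω *ᵥ v) := fun v =>
    (dot_self_nonneg v).trans (fm_ge hD _ _ hw v)
  have h1 := exm_Jq (hσ := hσ) hB (S.dl 1 k) (Q.v k ω) (Pi.single i 1)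
  have h2 : (Pi.single i 1 : Fin M → ℝ) ∘ (fun _ : Fin 1 => i) = Pi.single 0 1 := by
    funext a
    have ha : a = 0 := Subsingleton.elim _ _
    rw [ha, Function.comp_apply, Pi.single_eq_same, Pi.single_eq_same]
  have h3 : Q.v k ω ∘ (fun _ : Fin 1 => i) = z.v k ω := by
    funext a
    have ha : a = 0 := Subsingleton.elim _ _
    rw [ha, Function.comp_apply, hz]
  rw [h2, single_dv, single_dv, h3] at h1
  have h4 := fm_GQ (D := D) hD (cnr z c k ω) _ hw (S.dl 1 k) (z.v k ω)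
  have h5 : GQ (S.dl 1 k) (fm hD (cnr z c k ω) ((S.dl c k) ^ 2)⁻¹) (z.v k ω) =
      1 + Jq (S.dl 1 k) ((lvl hD z c).G k ω) (z.v k ω) 0 0 := by
    unfold GQ
    rw [Matrix.det_fin_one, Matrix.add_apply, Matrix.one_apply_eq]
    rfl
  have e1 : ((S.dl c k) ^ 2)⁻¹ = 2 ^ (2 * (c * (S.F k).n)) := by
    unfold Sp.dl
    rw [← Real.rpow_natCast, ← Real.rpow_mul (by norm_num), ← Real.rpow_neg (by norm_num)]
    congr 1
    push_cast
    ring
  have h6 : (2 : ℝ) ^ (2 * (c * (S.F k).n)) ≤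
      Jz Q i k ω (exm (fun _ : Fin 1 => i) hσ ((lvl hD z c).G k ω)) := by
    unfold Jz
    rw [← e1]
    linarith
  have h7 := Real.logb_le_logb_of_le (b := 2) (by norm_num) (by positivity) h6
  rw [Real.logb_rpow (by norm_num) (by norm_num)] at h7
  unfold xz
  rw [le_div_iff₀ (by positivity)]
  linarith

/-- **THE LEVEL OF ONE COORDINATE**: if its cells of level `c` are a label of the class, the exponent of an optimal form
is at least `c` -/
theorem zx_level [Finite κ] (hD : 1 ≤ D) {C : LC S} {A : κ → Part S} {Q : S.VV M} {x : ∀ k, FD (S.F k) (Mon M D)}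
    (hx : (gaq Q D).OptfK C A x) {i : Fin M} {z : S.VV 1} (hz : ∀ k ω, z.v k ω 0 = Q.v k ω i) {c : ℝ} (h0 : 0 ≤ c)
    (h1 : c ≤ 1) (hl : (Lab.ofZ fun k => Setoid.ker (z.cellv c k)).DMf A)
    (hC : C.ev (Lab.ofZ fun k => Setoid.ker (z.cellv c k))) : c ≤ zx Q i x := by
  have hσ : Function.Injective fun _ : Fin 1 => i := fun a b _ => Subsingleton.elim _ _
  have hP : ∀ k ω a, z.v k ω a = Q.v k ω ((fun _ : Fin 1 => i) a) := fun k ω a => by
    have ha : a = 0 := Subsingleton.elim _ _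
    rw [ha]
    exact hz k ω
  have h2 := lvl_adf (D := D) hD z h0 h1 hl
  have h3 : (gaq Q D).Adf A (exd (fun _ : Fin 1 => i) hσ (lvl hD z c).fd) := exd_adf hP h2
  have h4 : zx Q i (exd (fun _ : Fin 1 => i) hσ (lvl hD z c).fd) ≤ zx Q i x :=
    DomJ.zx_le (fun e he => Gau.OptfK.dom (gaq Q D) hx ⟨h3, hC⟩ e he) hx.1.1 h3 i
  refine le_trans ?_ h4
  have h8 : ul (fun _ : ℕ => c) ≤ zx Q i (exd (fun _ : Fin 1 => i) hσ (lvl hD z c).fd) := by
    apply ul_mono (UB_const c) (zv_UB i h3)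
    refine Eventually.of_forall fun k => ?_
    have h6 : ∀ ω, c ≤ xz Q i k ω (exm (fun _ : Fin 1 => i) hσ ((lvl hD z c).G k ω)) := fun ω =>
      lvl_xz hD z c k ω hz hσ
    show c ≤ ∑ ω, (S.F k).μ ω * xz Q i k ω (exm (fun _ : Fin 1 => i) hσ ((lvl hD z c).G k ω))
    calc c = ∑ ω, (S.F k).μ ω * c := by rw [← Finset.sum_mul, Pool.Agent.Helper3.PR.sum_mu, one_mul]
      _ ≤ _ := Finset.sum_le_sum fun ω _ => mul_le_mul_of_nonneg_left (h6 ω) ((S.F k).nn ω)
  rwa [ul_const] at h8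

end

end Pool.Agent.Helper84.KR
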