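import Pool.Agent.Helper89.LX.Can

/-! THE PART OF A POSITIVE DEFINITE FORM IN SOME OF THE COORDINATES: the largest form `B` in the coordinates `e` with
`B (v ∘ e) ≤ A v`; it is the inverse of the restriction of the inverse. -/

set_option autoImplicit false
set_option linter.unusedSectionVars false

namespace Pool.Agent.Helper84.KR

open Matrix Pool.Agent.Helper89.LX Pool.Agent.Helper95.LF

noncomputable section

variable {α β : Type} [Fintype α] [DecidableEq α] [Fintype β] [DecidableEq β]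

/-- the matrix of the inclusion -/
def inc (e : α → β) : Matrix β α ℝ := Matrix.of fun b a => if b = e a then 1 else 0

/-- extension by zero -/
theorem inc_mulVec (e : α → β) (w : α → ℝ) (b : β) : (inc e *ᵥ w) b = ∑ a, if b = e a then w a else 0 := by
  show ∑ a, (if b = e a then (1 : ℝ) else 0) * w a = _
  refine Finset.sum_congr rfl fun a _ => ?_
  split_ifs
  · rw [one_mul]
  · rw [zero_mul]

theorem inc_tr (e : α → β) (v : β → ℝ) : (inc e).transpose *ᵥ v = v ∘ e := by
  funext a
  unfold inc Matrix.mulVec dotProduct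
  simp only [Matrix.transpose_apply, Matrix.of_apply, ite_mul, one_mul, zero_mul, Finset.sum_ite_eq',
    Finset.mem_univ, if_true, Function.comp_apply]

theorem inc_comp {e : α → β} (he : Function.Injective e) (w : α → ℝ) : (inc e *ᵥ w) ∘ e = w := by
  funext a
  rw [Function.comp_apply, inc_mulVec, Finset.sum_eq_single a]
  · rw [if_pos rfl]
  · intro b _ hb
    rw [if_neg fun h => hb (he h).symm]
  · intro h
    exact absurd (Finset.mem_univ _) h

theorem inc_dot (e : α → β) (w : α → ℝ) (v : β → ℝ) : (inc e *ᵥ w) ⬝ᵥ v = w ⬝ᵥ (v ∘ e) := by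
  rw [← inc_tr, Matrix.dotProduct_mulVec, Matrix.vecMul_transpose]

theorem inc_self {e : α → β} (he : Function.Injective e) (w : α → ℝ) :
    (inc e *ᵥ w) ⬝ᵥ (inc e *ᵥ w) = w ⬝ᵥ w := by
  rw [inc_dot, inc_comp he]

theorem inv_dv {A : Matrix β β ℝ} (hA : PdM A) (v : β → ℝ) : A *ᵥ (A⁻¹ *ᵥ v) = v := by
  rw [Matrix.mulVec_mulVec, Matrix.mul_nonsing_inv _ (isUnit_iff_ne_zero.mpr hA.det_pos.ne'), Matrix.one_mulVec]

/-- the inverse of a positive definite form -/
theorem PdM_inv {A : Matrix β β ℝ} (hA : PdM A) : PdM A⁻¹ := by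
  refine ⟨?_, fun v hv => ?_⟩
  · have h1 : A.transpose = A := hA.1
    show A⁻¹.transpose = A⁻¹
    rw [Matrix.transpose_nonsing_inv, h1]
  · set u := A⁻¹ *ᵥ v with hu
    have h1 : A *ᵥ u = v := inv_dv hA v
    have h2 : u ≠ 0 := by
      intro h
      rw [h, Matrix.mulVec_zero] at h1
      exact hv h1.symm
    have h3 := hA.2 u h2
    rw [h1, dotProduct_comm] at h3
    exact h3

/-- the restriction of the inverse -/
def kin (e : α → β) (A : Matrix β β ℝ) : Matrix α α ℝ := (inc e).transpose * A⁻¹ * inc e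

theorem kin_pd {e : α → β} (he : Function.Injective e) {A : Matrix β β ℝ} (hA : PdM A) : PdM (kin e A) := by
  have h1 := PdM_inv hA
  refine ⟨?_, fun w hw => ?_⟩
  · have h2 : (A⁻¹).transpose = A⁻¹ := h1.1
    show (kin e A).transpose = kin e A
    unfold kin
    rw [Matrix.transpose_mul, Matrix.transpose_mul, Matrix.transpose_transpose, h2, Matrix.mul_assoc]
  · unfold kin
    rw [dv_conj]
    apply h1.2
    intro h
    apply hw
    have h2 := inc_comp he w
    rw [h] at h2
    rw [← h2]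
    rfl

/-- THE PART OF THE FORM in the coordinates `e` -/
def shr (e : α → β) (A : Matrix β β ℝ) : Matrix α α ℝ := (kin e A)⁻¹

/-- the optimal extension of a vector -/
def oex (e : α → β) (A : Matrix β β ℝ) (w : α → ℝ) : β → ℝ := A⁻¹ *ᵥ (inc e *ᵥ ((kin e A)⁻¹ *ᵥ w))

variable {e : α → β} (he : Function.Injective e) {A B : Matrix β β ℝ}

include he in
theorem shr_pd (hA : PdM A) : PdM (shr e A) := PdM_inv (kin_pd he hA)

include he in
theorem oex_comp (hA : PdM A) (w : α → ℝ) : oex e A w ∘ e = w := by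
  have h1 : oex e A w ∘ e = kin e A *ᵥ ((kin e A)⁻¹ *ᵥ w) := by
    rw [← inc_tr]
    unfold oex
    conv_rhs => rw [show kin e A = (inc e).transpose * A⁻¹ * inc e from rfl]
    rw [← Matrix.mulVec_mulVec, ← Matrix.mulVec_mulVec]
    rfl
  rw [h1, inv_dv (kin_pd he hA)]

include he in
/-- the part of the form is attained -/
theorem shr_att (hA : PdM A) (w : α → ℝ) : qf (shr e A) w = qf A (oex e A w) := by
  have h1 : A *ᵥ oex e A w = inc e *ᵥ ((kin e A)⁻¹ *ᵥ w) := inv_dv hA _
  show w ⬝ᵥ (shr e A *ᵥ w) = oex e A w ⬝ᵥ (A *ᵥ oex e A w)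
  rw [h1, dotProduct_comm (oex e A w), inc_dot, oex_comp he hA, dotProduct_comm]
  rfl

include he in
/-- the part of the form is below the form -/
theorem shr_le (hA : PdM A) (v : β → ℝ) : qf (shr e A) (v ∘ e) ≤ qf A v := by
  rw [shr_att he hA]
  set u := oex e A (v ∘ e) with hu
  have h1 : A *ᵥ u = inc e *ᵥ ((kin e A)⁻¹ *ᵥ (v ∘ e)) := inv_dv hA _
  have h2 : (v - u) ⬝ᵥ (A *ᵥ u) = 0 := by
    rw [h1, dotProduct_comm, inc_dot]
    have h3 : (v - u) ∘ e = 0 := by
      funext a
      have h4 := congrFun (oex_comp he hA (v ∘ e)) a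
      rw [← hu] at h4
      show v (e a) - u (e a) = 0
      have h5 : u (e a) = v (e a) := h4
      rw [h5, sub_self]
    rw [h3, dotProduct_zero]
  have h3 : u ⬝ᵥ (A *ᵥ (v - u)) = (v - u) ⬝ᵥ (A *ᵥ u) := by
    rw [Matrix.dotProduct_mulVec, ← Matrix.mulVec_transpose, dotProduct_comm]
    have h4 : A.transpose = A := hA.1
    rw [h4]
  have h4 : qf A v = qf A u + 2 * ((v - u) ⬝ᵥ (A *ᵥ u)) + qf A (v - u) := by
    have h5 : v = u + (v - u) := by abel
    unfold qf
    conv_lhs => rw [h5]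
    rw [Matrix.mulVec_add, dotProduct_add, add_dotProduct, add_dotProduct, h3]
    ring
  have h5 : 0 ≤ qf A (v - u) := hA.nonneg _
  rw [h4, h2]
  linarith

include he in
/-- the part of the form is the largest one -/
theorem shr_max (hA : PdM A) {C : Matrix α α ℝ} {c : ℝ} (h : ∀ v : β → ℝ, qf C (v ∘ e) ≤ c * qf A v) (w : α → ℝ) :
    qf C w ≤ c * qf (shr e A) w := by
  rw [shr_att he hA]
  have h1 := h (oex e A w)
  rwa [oex_comp he hA] at h1

include he in
theorem shr_mono (hA : PdM A) (hB : PdM B) {c : ℝ} (h : ∀ v, qf A v ≤ c * qf B v) (w : α → ℝ) :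
    qf (shr e A) w ≤ c * qf (shr e B) w :=
  shr_max he hB (fun v => (shr_le he hA v).trans (h v)) w

theorem comp_self_le (he : Function.Injective e) (v : β → ℝ) : (v ∘ e) ⬝ᵥ (v ∘ e) ≤ v ⬝ᵥ v := by
  unfold dotProduct
  have h1 : ∑ a, (v ∘ e) a * (v ∘ e) a = ∑ b ∈ Finset.univ.map ⟨e, he⟩, v b * v b := by
    rw [Finset.sum_map]
    rfl
  rw [h1]
  exact Finset.sum_le_sum_of_subset_of_nonneg (Finset.subset_univ _) fun b _ _ => mul_self_nonneg _

include he in
theorem shr_cpd {c : ℝ} (hA : Cpd c A) : Cpd c (shr e A) := by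
  have hp : PdM A := ⟨hA.1, fun v hv => (self_pos hv).trans_le (hA.2.1 v)⟩
  refine ⟨(shr_pd he hp).1, fun w => ?_, fun w => ?_⟩
  · rw [shr_att he hp]
    have h1 := comp_self_le he (oex e A w)
    rw [oex_comp he hp] at h1
    exact h1.trans (hA.2.1 _)
  · have h1 := shr_le he hp (inc e *ᵥ w)
    rw [inc_comp he] at h1
    have h2 := hA.2.2 (inc e *ᵥ w)
    rw [inc_self he] at h2
    exact h1.trans h2

/-! ### extension of a form by the identity -/

/-- the form `B` in the coordinates `e` and the identity in the others -/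
def exf (e : α → β) (B : Matrix α α ℝ) : Matrix β β ℝ :=
  inc e * B * (inc e).transpose + Matrix.diagonal fun b => if b ∈ Set.range e then 0 else 1

theorem exf_qf (B : Matrix α α ℝ) (v : β → ℝ) :
    qf (exf e B) v = qf B (v ∘ e) + ∑ b, (if b ∈ Set.range e then 0 else v b * v b) := by
  unfold qf exf
  rw [dv_add]
  congr 1
  · have h1 := dv_conj (inc e).transpose B v
    rw [Matrix.transpose_transpose, inc_tr] at h1
    exact h1
  · refine Finset.sum_congr rfl fun b _ => ?_
    have h1 : (Matrix.diagonal (fun b => if b ∈ Set.range e then (0 : ℝ) else 1) *ᵥ v) b =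
        (if b ∈ Set.range e then (0 : ℝ) else 1) * v b := Matrix.mulVec_diagonal _ v b
    rw [h1]
    split_ifs
    · ring
    · ring

theorem range_sum (he : Function.Injective e) (v : β → ℝ) :
    v ⬝ᵥ v = (v ∘ e) ⬝ᵥ (v ∘ e) + ∑ b, (if b ∈ Set.range e then 0 else v b * v b) := by
  have h1 : (v ∘ e) ⬝ᵥ (v ∘ e) = ∑ b, (if b ∈ Set.range e then v b * v b else 0) := by
    have h2 : (v ∘ e) ⬝ᵥ (v ∘ e) = ∑ b ∈ Finset.univ.map ⟨e, he⟩, v b * v b := by
      rw [Finset.sum_map]
      rfl
    rw [h2, ← Finset.sum_filter]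
    congr 1
    ext b
    simp
  rw [h1, ← Finset.sum_add_distrib]
  unfold dotProduct
  refine Finset.sum_congr rfl fun b _ => ?_
  split_ifs <;> ring

theorem exf_symm {B : Matrix α α ℝ} (hB : B.IsSymm) : (exf e B).IsSymm := by
  have h1 : B.transpose = B := hB
  show (exf e B).transpose = exf e B
  unfold exf
  rw [Matrix.transpose_add, Matrix.transpose_mul, Matrix.transpose_mul, Matrix.transpose_transpose, h1,
    Matrix.diagonal_transpose, Matrix.mul_assoc]

theorem exf_cpd (he : Function.Injective e) {c : ℝ} (hc : 1 ≤ c) {B : Matrix α α ℝ} (hB : Cpd c B) :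
    Cpd c (exf e B) := by
  have h0 : ∀ v : β → ℝ, 0 ≤ ∑ b, (if b ∈ Set.range e then 0 else v b * v b) := fun v =>
    Finset.sum_nonneg fun b _ => by split_ifs; exacts [le_rfl, mul_self_nonneg _]
  refine ⟨exf_symm hB.1, fun v => ?_, fun v => ?_⟩
  · rw [exf_qf, range_sum he v]
    have := hB.2.1 (v ∘ e)
    linarith
  · rw [exf_qf, range_sum he v]
    have h1 := hB.2.2 (v ∘ e)
    have h2 := h0 v
    nlinarith

/-- the form is below its extension -/
theorem exf_ge (B : Matrix α α ℝ) (v : β → ℝ) : qf B (v ∘ e) ≤ qf (exf e B) v := by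
  rw [exf_qf]
  have h0 : 0 ≤ ∑ b, (if b ∈ Set.range e then 0 else v b * v b) :=
    Finset.sum_nonneg fun b _ => by split_ifs; exacts [le_rfl, mul_self_nonneg _]
  linarith

theorem exf_le (B : Matrix α α ℝ) (v : β → ℝ) : qf (exf e B) v ≤ qf B (v ∘ e) + v ⬝ᵥ v := by
  rw [exf_qf]
  apply add_le_add le_rfl
  unfold dotProduct
  refine Finset.sum_le_sum fun b _ => ?_
  split_ifs
  exacts [mul_self_nonneg _, le_rfl]

end

end Pool.Agent.Helper84.KR
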